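import Pool.Agent.Y720.WD.Gra

/-!
# Conic bundles with cuspidal reduction in the other direction: local analysis (helper720)
-/

set_option autoImplicit false
set_option linter.unusedVariables false
set_option linter.unusedSectionVars false

open WeierstrassCurve Filter Topology

namespace Pool.Agent.Y720.MZ

/-- the coefficients of `a x ^ 2 + b x + e + d y` -/
def g2 (a b e d : ℤ) : Fin 5 → Fin 5 → ℤ :=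
  ![![e, d, 0, 0, 0], ![b, 0, 0, 0, 0], ![a, 0, 0, 0, 0], ![0, 0, 0, 0, 0], ![0, 0, 0, 0, 0]]

lemma F4_g2 (a b e d : ℤ) {R : Type*} [CommRing R] (x y : R) :
    F4 (g2 a b e d) x y = a * x ^ 2 + b * x + e + d * y := by
  simp [F4, g2, Fin.sum_univ_five]
  ring

variable {p : ℕ} [hp : Fact p.Prime]

/-- the reduction of the conic bundle -/
structure G2 (p : ℕ) (c h : Fin 5 → Fin 5 → ℤ) (a b e d : ℤ) : Prop where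
  h11 : 11 ≤ p
  hr : ∀ j, h 3 j = 0 ∧ h 4 j = 0
  hc : ∀ i j, c i j = g2 a b e d i j + p * h i j
  ha : ¬ IsSquare (a : ZMod p)
  hd : (d : ZMod p) ≠ 0
  hl : ∀ k : ZMod p, cf h k 4 ≠ 0
  ht : (h 2 4 : ZMod p) ≠ 0

variable {c h : Fin 5 → Fin 5 → ℤ} {a b e d : ℤ}

lemma G2.split (H : G2 p c h a b e d) {R : Type*} [CommRing R] (x y : R) :
    F4 c x y = (a * x ^ 2 + b * x + e + d * y) + p * F4 h x y := by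
  rw [← F4_g2]
  unfold F4
  rw [Finset.mul_sum, ← Finset.sum_add_distrib]
  refine Finset.sum_congr rfl fun i _ => ?_
  rw [Finset.mul_sum, ← Finset.sum_add_distrib]
  refine Finset.sum_congr rfl fun j _ => ?_
  rw [H.hc]; push_cast; ring

lemma G2.cfs (H : G2 p c h a b e d) {R : Type*} [CommRing R] (x : R) (j : Fin 5) :
    MZ.cf c x j = MZ.cf (g2 a b e d) x j + p * MZ.cf h x j := by
  unfold MZ.cf
  rw [Finset.mul_sum, ← Finset.sum_add_distrib]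
  refine Finset.sum_congr rfl fun i _ => ?_
  rw [H.hc]; push_cast; ring

lemma G2.tqs (H : G2 p c h a b e d) {R : Type*} [CommRing R] (x y : R) :
    MZ.tq c x y 0 = d + p * MZ.tq h x y 0 ∧ MZ.tq c x y 1 = p * MZ.tq h x y 1 ∧
    MZ.tq c x y 2 = p * MZ.tq h x y 2 ∧ MZ.tq c x y 3 = p * MZ.cf h x 4 := by
  have e0 := H.cfs x 1
  have e1 := H.cfs x 2
  have e2 := H.cfs x 3
  have e3 := H.cfs x 4
  have f : ∀ j, MZ.cf (g2 a b e d) x j = ∑ i, (g2 a b e d i j : R) * x ^ (i : ℕ) := fun j => rfl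
  rw [f] at e0 e1 e2 e3
  simp [g2, Fin.sum_univ_five] at e0 e1 e2 e3
  refine ⟨?_, ?_, ?_, ?_⟩ <;> simp only [MZ.tq] <;> simp <;> rw [e3]
  · rw [e0, e1, e2]; ring
  · rw [e1, e2]; ring
  · rw [e2]; ring

/-- the coefficients in the first variable -/
def rf (c : Fin 5 → Fin 5 → ℤ) {R : Type*} [CommRing R] (y : R) (i : Fin 5) : R :=
  ∑ j, (c i j : R) * y ^ (j : ℕ)

lemma map_rf (c : Fin 5 → Fin 5 → ℤ) {R S : Type*} [CommRing R] [CommRing S] (f : R →+* S)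
    (y : R) (i : Fin 5) : f (rf c y i) = rf c (f y) i := by
  simp [rf, map_sum]

lemma F4_rf {c : Fin 5 → Fin 5 → ℤ} (hc : ∀ j, c 3 j = 0 ∧ c 4 j = 0) {R : Type*} [CommRing R]
    (x y : R) : F4 c x y = rf c y 2 * x ^ 2 + rf c y 1 * x + rf c y 0 := by
  simp only [F4, rf, Fin.sum_univ_five]
  simp [(hc _).1, (hc _).2]
  ring

lemma G2.row (H : G2 p c h a b e d) (j : Fin 5) : c 3 j = 0 ∧ c 4 j = 0 := by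
  obtain ⟨h1, h2⟩ := H.hr j
  refine ⟨?_, ?_⟩
  · rw [H.hc, h1]; fin_cases j <;> simp [g2]
  · rw [H.hc, h2]; fin_cases j <;> simp [g2]

lemma G2.rf2 (H : G2 p c h a b e d) {R : Type*} [CommRing R] (y : R) :
    MZ.rf c y 2 = a + p * MZ.rf h y 2 ∧ MZ.rf c y 1 = b + p * MZ.rf h y 1 ∧
    MZ.rf c y 0 = e + d * y + p * MZ.rf h y 0 := by
  have key : ∀ i, MZ.rf c y i = MZ.rf (g2 a b e d) y i + p * MZ.rf h y i := by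
    intro i
    unfold MZ.rf
    rw [Finset.mul_sum, ← Finset.sum_add_distrib]
    refine Finset.sum_congr rfl fun j _ => ?_
    rw [H.hc]; push_cast; ring
  refine ⟨?_, ?_, ?_⟩ <;> rw [key] <;> congr 1 <;> simp [MZ.rf, g2, Fin.sum_univ_five]

lemma inv_ex (x : ℚ_[p]) (hx : ¬ ‖x‖ ≤ 1) : ∃ s : ℤ_[p], (((p : ℤ_[p]) * s : ℤ_[p]) : ℚ_[p]) * x = 1 := by
  push Not at hx
  have hx0 : x ≠ 0 := by
    rintro rfl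
    rw [norm_zero] at hx
    linarith
  have h1 : ‖x⁻¹‖ < 1 := by rw [norm_inv]; exact inv_lt_one_of_one_lt₀ hx
  let ξ : ℤ_[p] := ⟨x⁻¹, h1.le⟩
  have h2 : ‖ξ‖ < 1 := by rw [PadicInt.norm_def]; exact h1
  obtain ⟨s, hs⟩ := PadicInt.norm_lt_one_iff_dvd _ |>.1 h2
  refine ⟨s, ?_⟩
  rw [← hs]
  exact inv_mul_cancel₀ hx0

/-- **All the local points are integral.** -/
theorem G2.int (H : G2 p c h a b e d) {x y w : ℚ_[p]} (hw : w ^ 2 = F4 c x y) :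
    ∃ X Y W : ℤ_[p], x = X ∧ y = Y ∧ w = W ∧ W ^ 2 = F4 c X Y := by
  by_cases hx : ‖x‖ ≤ 1 <;> by_cases hy : ‖y‖ ≤ 1
  · obtain ⟨X, rfl⟩ : ∃ X : ℤ_[p], x = X := ⟨⟨x, hx⟩, rfl⟩
    obtain ⟨Y, rfl⟩ : ∃ Y : ℤ_[p], y = Y := ⟨⟨y, hy⟩, rfl⟩
    rw [← F4_coe] at hw
    obtain ⟨W, rfl, hW⟩ := int_of_sq hw
    exact ⟨X, Y, W, rfl, rfl, rfl, hW⟩
  · exfalso
    obtain ⟨X, rfl⟩ : ∃ X : ℤ_[p], x = X := ⟨⟨x, hx⟩, rfl⟩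
    obtain ⟨t, h1⟩ := inv_ex y hy
    set η : ℤ_[p] := (p : ℤ_[p]) * t with hη
    have e1 : (w * (η : ℚ_[p]) ^ 2) ^ 2 = ((MZ.cf c X 0 * η ^ 4 + MZ.cf c X 1 * η ^ 3 +
        MZ.cf c X 2 * η ^ 2 + MZ.cf c X 3 * η + MZ.cf c X 4 : ℤ_[p]) : ℚ_[p]) := by
      have k : ∀ j, ((MZ.cf c X j : ℤ_[p]) : ℚ_[p]) = MZ.cf c (X : ℚ_[p]) j :=
        fun j => map_cf c (PadicInt.Coe.ringHom (p := p)) X j
      push_cast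
      simp only [k]
      rw [mul_pow, hw, F4_cf]
      have e2 : (η : ℚ_[p]) ^ 2 * y ^ 2 = 1 := by rw [← mul_pow, h1, one_pow]
      have e3 : (η : ℚ_[p]) ^ 3 * y ^ 3 = 1 := by rw [← mul_pow, h1, one_pow]
      have e4 : (η : ℚ_[p]) ^ 4 * y ^ 4 = 1 := by rw [← mul_pow, h1, one_pow]
      linear_combination MZ.cf c (X : ℚ_[p]) 1 * (η : ℚ_[p]) ^ 3 * h1 +
        MZ.cf c (X : ℚ_[p]) 2 * (η : ℚ_[p]) ^ 2 * e2 + MZ.cf c (X : ℚ_[p]) 3 * (η : ℚ_[p]) * e3 +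
        MZ.cf c (X : ℚ_[p]) 4 * e4
    have f : ∀ j, MZ.cf (g2 a b e d) X j = ∑ i, (g2 a b e d i j : ℤ_[p]) * X ^ (i : ℕ) :=
      fun j => rfl
    have f0 := H.cfs X 0
    have f1 := H.cfs X 1
    have f2 := H.cfs X 2
    have f3 := H.cfs X 3
    have f4 := H.cfs X 4
    rw [f] at f0 f1 f2 f3 f4
    simp [g2, Fin.sum_univ_five] at f0 f1 f2 f3 f4
    have key : MZ.cf c X 0 * η ^ 4 + MZ.cf c X 1 * η ^ 3 +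
        MZ.cf c X 2 * η ^ 2 + MZ.cf c X 3 * η + MZ.cf c X 4 = (p : ℤ_[p]) * (MZ.cf h X 4 +
        (p : ℤ_[p]) * (MZ.cf c X 0 * t ^ 4 * (p : ℤ_[p]) ^ 2 + MZ.cf c X 1 * t ^ 3 * (p : ℤ_[p]) +
          MZ.cf c X 2 * t ^ 2 + MZ.cf h X 3 * t)) := by
      rw [hη, f4, f3]; ring
    rw [key] at e1
    refine nsq_p e1 ?_
    rw [map_add, map_mul, toZ_p, zero_mul, add_zero, map_cf]
    exact H.hl _
  · exfalso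
    obtain ⟨Y, rfl⟩ : ∃ Y : ℤ_[p], y = Y := ⟨⟨y, hy⟩, rfl⟩
    obtain ⟨s, h1⟩ := inv_ex x hx
    set ξ : ℤ_[p] := (p : ℤ_[p]) * s with hξ
    have e1 : (w * (ξ : ℚ_[p])) ^ 2 = ((MZ.rf c Y 2 + MZ.rf c Y 1 * ξ + MZ.rf c Y 0 * ξ ^ 2 :
        ℤ_[p]) : ℚ_[p]) := by
      have k : ∀ j, ((MZ.rf c Y j : ℤ_[p]) : ℚ_[p]) = MZ.rf c (Y : ℚ_[p]) j :=
        fun j => map_rf c (PadicInt.Coe.ringHom (p := p)) Y j
      push_cast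
      simp only [k]
      rw [mul_pow, hw, F4_rf H.row]
      have e2 : (ξ : ℚ_[p]) ^ 2 * x ^ 2 = 1 := by rw [← mul_pow, h1, one_pow]
      linear_combination MZ.rf c (Y : ℚ_[p]) 1 * (ξ : ℚ_[p]) * h1 +
        MZ.rf c (Y : ℚ_[p]) 2 * e2
    obtain ⟨Z, -, hZ⟩ := int_of_sq e1
    apply H.ha
    refine sq_red (z := Z) ?_
    rw [hZ, (H.rf2 Y).1, hξ]
    simp only [map_add, map_mul, map_pow, toZ_p, zero_mul, mul_zero, add_zero, map_intCast,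
      zero_pow two_ne_zero]
  · exfalso
    obtain ⟨s, h1⟩ := inv_ex x hx
    obtain ⟨t, h2⟩ := inv_ex y hy
    set ξ : ℤ_[p] := (p : ℤ_[p]) * s with hξ
    set η : ℤ_[p] := (p : ℤ_[p]) * t with hη
    -- the coefficients of `h`
    have e1 : (w * (ξ : ℚ_[p]) * (η : ℚ_[p]) ^ 2) ^ 2 = (((p : ℤ_[p]) * ((h 2 4 : ℤ_[p]) +
        (p : ℤ_[p]) * ((p : ℤ_[p]) ^ 2 * t ^ 4 * ((a : ℤ_[p]) + b * ξ + e * ξ ^ 2) +
          (p : ℤ_[p]) ^ 3 * (d : ℤ_[p]) * s ^ 2 * t ^ 3 +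
          ((h 2 3 : ℤ_[p]) * t + h 2 2 * t * η + h 2 1 * t * η ^ 2 + h 2 0 * t * η ^ 3) +
          s * ((h 1 4 : ℤ_[p]) + h 1 3 * η + h 1 2 * η ^ 2 + h 1 1 * η ^ 3 + h 1 0 * η ^ 4) +
          s * ξ * ((h 0 4 : ℤ_[p]) + h 0 3 * η + h 0 2 * η ^ 2 + h 0 1 * η ^ 3 +
            h 0 0 * η ^ 4))) : ℤ_[p]) : ℚ_[p]) := by
      have k1 : (ξ : ℚ_[p]) ^ 2 * x ^ 2 = 1 := by rw [← mul_pow, h1, one_pow]
      have k2 : (η : ℚ_[p]) ^ 2 * y ^ 2 = 1 := by rw [← mul_pow, h2, one_pow]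
      have k3 : (η : ℚ_[p]) ^ 3 * y ^ 3 = 1 := by rw [← mul_pow, h2, one_pow]
      have k4 : (η : ℚ_[p]) ^ 4 * y ^ 4 = 1 := by rw [← mul_pow, h2, one_pow]
      have kη : (η : ℚ_[p]) = p * t := by rw [hη]; push_cast; ring
      have kξ : (ξ : ℚ_[p]) = p * s := by rw [hξ]; push_cast; ring
      have m : ∀ i j : ℕ, i ≤ 2 → j ≤ 4 → (ξ : ℚ_[p]) ^ 2 * (η : ℚ_[p]) ^ 4 * (x ^ i * y ^ j) =
          (ξ : ℚ_[p]) ^ (2 - i) * (η : ℚ_[p]) ^ (4 - j) := by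
        intro i j hi hj
        have q1 : (ξ : ℚ_[p]) ^ 2 = (ξ : ℚ_[p]) ^ (2 - i) * (ξ : ℚ_[p]) ^ i := by
          rw [← pow_add]; congr 1; omega
        have q2 : (η : ℚ_[p]) ^ 4 = (η : ℚ_[p]) ^ (4 - j) * (η : ℚ_[p]) ^ j := by
          rw [← pow_add]; congr 1; omega
        have q3 : (ξ : ℚ_[p]) ^ i * x ^ i = 1 := by rw [← mul_pow, h1, one_pow]
        have q4 : (η : ℚ_[p]) ^ j * y ^ j = 1 := by rw [← mul_pow, h2, one_pow]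
        rw [q1, q2]
        linear_combination (ξ : ℚ_[p]) ^ (2 - i) * (η : ℚ_[p]) ^ (4 - j) * (ξ : ℚ_[p]) ^ i * x ^ i * q4 +
          (ξ : ℚ_[p]) ^ (2 - i) * (η : ℚ_[p]) ^ (4 - j) * q3
      have hh : F4 h x y = (h 0 0 : ℚ_[p]) * (x ^ 0 * y ^ 0) + (h 0 1 : ℚ_[p]) * (x ^ 0 * y ^ 1) + (h 0 2 : ℚ_[p]) * (x ^ 0 * y ^ 2) + (h 0 3 : ℚ_[p]) * (x ^ 0 * y ^ 3) + (h 0 4 : ℚ_[p]) * (x ^ 0 * y ^ 4) + (h 1 0 : ℚ_[p]) * (x ^ 1 * y ^ 0) + (h 1 1 : ℚ_[p]) * (x ^ 1 * y ^ 1) + (h 1 2 : ℚ_[p]) * (x ^ 1 * y ^ 2) + (h 1 3 : ℚ_[p]) * (x ^ 1 * y ^ 3) + (h 1 4 : ℚ_[p]) * (x ^ 1 * y ^ 4) + (h 2 0 : ℚ_[p]) * (x ^ 2 * y ^ 0) + (h 2 1 : ℚ_[p]) * (x ^ 2 * y ^ 1) + (h 2 2 : ℚ_[p]) * (x ^ 2 * y ^ 2) + (h 2 3 : ℚ_[p]) * (x ^ 2 * y ^ 3) + (h 2 4 : ℚ_[p]) * (x ^ 2 * y ^ 4) := by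
        simp only [F4, Fin.sum_univ_five]
        simp [(H.hr _).1, (H.hr _).2]
        ring
      have h3 : (w * (ξ : ℚ_[p]) * (η : ℚ_[p]) ^ 2) ^ 2 =
          (ξ : ℚ_[p]) ^ 2 * (η : ℚ_[p]) ^ 4 * (a * x ^ 2 + b * x + e + d * y) +
            p * ((ξ : ℚ_[p]) ^ 2 * (η : ℚ_[p]) ^ 4 * F4 h x y) := by
        have := H.split x y
        rw [mul_pow, mul_pow, hw, this]; ring
      rw [h3, hh]
      have m' : ∀ (i j : ℕ) (u : ℚ_[p]), i ≤ 2 → j ≤ 4 →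
          (ξ : ℚ_[p]) ^ 2 * (η : ℚ_[p]) ^ 4 * (u * (x ^ i * y ^ j)) =
          u * ((ξ : ℚ_[p]) ^ (2 - i) * (η : ℚ_[p]) ^ (4 - j)) := by
        intro i j u hi hj
        rw [← m i j hi hj]; ring
      have m2 : (ξ : ℚ_[p]) ^ 2 * (η : ℚ_[p]) ^ 4 * (a * x ^ 2 + b * x + e + d * y) =
          a * (η : ℚ_[p]) ^ 4 + b * (ξ * (η : ℚ_[p]) ^ 4) + e * ((ξ : ℚ_[p]) ^ 2 * (η : ℚ_[p]) ^ 4)
            + d * ((ξ : ℚ_[p]) ^ 2 * (η : ℚ_[p]) ^ 3) := by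
        have r1 := m 2 0 (by norm_num) (by norm_num)
        have r2 := m 1 0 (by norm_num) (by norm_num)
        have r3 := m 0 1 (by norm_num) (by norm_num)
        norm_num at r1 r2 r3
        linear_combination (a : ℚ_[p]) * r1 + (b : ℚ_[p]) * r2 + (d : ℚ_[p]) * r3
      rw [m2]
      have n00 := m' 0 0 (h 0 0 : ℚ_[p]) (by norm_num) (by norm_num)
      have n01 := m' 0 1 (h 0 1 : ℚ_[p]) (by norm_num) (by norm_num)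
      have n02 := m' 0 2 (h 0 2 : ℚ_[p]) (by norm_num) (by norm_num)
      have n03 := m' 0 3 (h 0 3 : ℚ_[p]) (by norm_num) (by norm_num)
      have n04 := m' 0 4 (h 0 4 : ℚ_[p]) (by norm_num) (by norm_num)
      have n10 := m' 1 0 (h 1 0 : ℚ_[p]) (by norm_num) (by norm_num)
      have n11 := m' 1 1 (h 1 1 : ℚ_[p]) (by norm_num) (by norm_num)
      have n12 := m' 1 2 (h 1 2 : ℚ_[p]) (by norm_num) (by norm_num)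
      have n13 := m' 1 3 (h 1 3 : ℚ_[p]) (by norm_num) (by norm_num)
      have n14 := m' 1 4 (h 1 4 : ℚ_[p]) (by norm_num) (by norm_num)
      have n20 := m' 2 0 (h 2 0 : ℚ_[p]) (by norm_num) (by norm_num)
      have n21 := m' 2 1 (h 2 1 : ℚ_[p]) (by norm_num) (by norm_num)
      have n22 := m' 2 2 (h 2 2 : ℚ_[p]) (by norm_num) (by norm_num)
      have n23 := m' 2 3 (h 2 3 : ℚ_[p]) (by norm_num) (by norm_num)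
      have n24 := m' 2 4 (h 2 4 : ℚ_[p]) (by norm_num) (by norm_num)
      have g2 : (a : ℚ_[p]) * (η : ℚ_[p]) ^ 4 + b * (ξ * (η : ℚ_[p]) ^ 4) +
          e * ((ξ : ℚ_[p]) ^ 2 * (η : ℚ_[p]) ^ 4) + d * ((ξ : ℚ_[p]) ^ 2 * (η : ℚ_[p]) ^ 3) +
          p * ((h 0 0 : ℚ_[p]) * ((ξ : ℚ_[p]) ^ (2 - 0) * (η : ℚ_[p]) ^ (4 - 0)) + (h 0 1 : ℚ_[p]) * ((ξ : ℚ_[p]) ^ (2 - 0) * (η : ℚ_[p]) ^ (4 - 1)) + (h 0 2 : ℚ_[p]) * ((ξ : ℚ_[p]) ^ (2 - 0) * (η : ℚ_[p]) ^ (4 - 2)) + (h 0 3 : ℚ_[p]) * ((ξ : ℚ_[p]) ^ (2 - 0) * (η : ℚ_[p]) ^ (4 - 3)) + (h 0 4 : ℚ_[p]) * ((ξ : ℚ_[p]) ^ (2 - 0) * (η : ℚ_[p]) ^ (4 - 4)) + (h 1 0 : ℚ_[p]) * ((ξ : ℚ_[p]) ^ (2 - 1) * (η : ℚ_[p]) ^ (4 - 0)) + (h 1 1 : ℚ_[p]) * ((ξ : ℚ_[p]) ^ (2 - 1) * (η : ℚ_[p]) ^ (4 - 1)) + (h 1 2 : ℚ_[p]) * ((ξ : ℚ_[p]) ^ (2 - 1) * (η : ℚ_[p]) ^ (4 - 2)) + (h 1 3 : ℚ_[p])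 * ((ξ : ℚ_[p]) ^ (2 - 1) * (η : ℚ_[p]) ^ (4 - 3)) + (h 1 4 : ℚ_[p]) * ((ξ : ℚ_[p]) ^ (2 - 1) * (η : ℚ_[p]) ^ (4 - 4)) + (h 2 0 : ℚ_[p]) * ((ξ : ℚ_[p]) ^ (2 - 2) * (η : ℚ_[p]) ^ (4 - 0)) + (h 2 1 : ℚ_[p]) * ((ξ : ℚ_[p]) ^ (2 - 2) * (η : ℚ_[p]) ^ (4 - 1)) + (h 2 2 : ℚ_[p]) * ((ξ : ℚ_[p]) ^ (2 - 2) * (η : ℚ_[p]) ^ (4 - 2)) + (h 2 3 : ℚ_[p]) * ((ξ : ℚ_[p]) ^ (2 - 2) * (η : ℚ_[p]) ^ (4 - 3)) + (h 2 4 : ℚ_[p]) * ((ξ : ℚ_[p]) ^ (2 - 2) * (η : ℚ_[p]) ^ (4 - 4))) = p * (h 2 4 + p * (p ^ 2 * t ^ 4 * (a + b * ξ + e * ξ ^ 2) + p ^ 3 * d * s ^ 2 * t ^ 3 +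
          (h 2 3 * t + h 2 2 * t * η + h 2 1 * t * η ^ 2 + h 2 0 * t * η ^ 3) +
          s * (h 1 4 + h 1 3 * η + h 1 2 * η ^ 2 + h 1 1 * η ^ 3 + h 1 0 * η ^ 4) +
          s * ξ * (h 0 4 + h 0 3 * η + h 0 2 * η ^ 2 + h 0 1 * η ^ 3 + h 0 0 * η ^ 4))) := by
        rw [kξ, kη]
        norm_num
        ring
      push_cast
      linear_combination g2 + (p : ℚ_[p]) * (n00 + n01 + n02 + n03 + n04 + n10 + n11 + n12 + n13 + n14 + n20 + n21 + n22 + n23 + n24)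
    refine nsq_p e1 ?_
    rw [map_add, map_mul, toZ_p, zero_mul, add_zero, map_intCast]
    exact H.ht

end Pool.Agent.Y720.MZ
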