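import Pool.Agent.Y720.WC.C1

/-!
# Conic bundles with cuspidal reduction in the other direction: the fibres and the moves
(helper720)
-/

set_option autoImplicit false
set_option linter.unusedVariables false
set_option linter.unusedSectionVars false

open WeierstrassCurve Filter Topology

namespace Pool.Agent.Y720.MZ

section loc

variable {p : ℕ} [hp : Fact p.Prime] {c h : Fin 5 → Fin 5 → ℤ} {a b e d : ℤ}

lemma G2.nz (H : G2 p c h a b e d) {n : ℕ} (h0 : n ≠ 0) (h1 : n < 11) : (n : ZMod p) ≠ 0 := by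
  intro h2
  rw [ZMod.natCast_eq_zero_iff] at h2
  have := Nat.le_of_dvd (Nat.pos_of_ne_zero h0) h2
  have := H.h11
  omega

/-- **The fibres.** -/
theorem G2.cu (H : G2 p c h a b e d) (X Y W : ℤ_[p]) :
    Cu (av (RingHom.id ℚ_[p])) ‖(p : ℚ_[p])‖ ((tq c X Y 1 : ℤ_[p]) : ℚ_[p])
      ((rb W (tq c X Y 0) (tq c X Y 2) (tq c X Y 3) : ℤ_[p]) : ℚ_[p])
      ((rc W (tq c X Y 0) (tq c X Y 1) (tq c X Y 2) (tq c X Y 3) : ℤ_[p]) : ℚ_[p]) 0 ∧
    (‖W‖ = 1 → ‖xs (W : ℚ_[p]) ((tq c X Y 0 : ℤ_[p]) : ℚ_[p]) ((tq c X Y 1 : ℤ_[p]) : ℚ_[p])‖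
      = 1) ∧ ‖tq c X Y 0‖ = 1 := by
  have h11 := H.h11
  obtain ⟨q0, q1, q2, q3⟩ := H.tqs X Y
  set Q0 := tq c X Y 0
  set Q1 := tq c X Y 1
  set Q2 := tq c X Y 2
  set Q3 := tq c X Y 3
  set η1 := tq h X Y 0
  set η2 := tq h X Y 1
  set η3 := tq h X Y 2
  set η4 := cf h X 4 with hη4
  have n2 : ‖(2 : ℚ_[p])‖ = 1 := by exact_mod_cast nat_one (p := p) (n := 2) (by norm_num) (by omega)
  have n3 : ‖(3 : ℚ_[p])‖ = 1 := by exact_mod_cast nat_one (p := p) (n := 3) (by norm_num) (by omega)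
  have n5 : ‖(5 : ℚ_[p])‖ = 1 := by exact_mod_cast nat_one (p := p) (n := 5) (by norm_num) (by omega)
  have n7 : ‖(7 : ℚ_[p])‖ = 1 := by exact_mod_cast nat_one (p := p) (n := 7) (by norm_num) (by omega)
  have k2 : ((2 : ℤ_[p]) : ℚ_[p]) = 2 := map_ofNat (PadicInt.Coe.ringHom (p := p)) 2
  have k4 : ((4 : ℤ_[p]) : ℚ_[p]) = 4 := map_ofNat (PadicInt.Coe.ringHom (p := p)) 4
  have u0 : ‖Q0‖ = 1 := by
    rw [← red_one, q0, map_add, map_mul, toZ_p, zero_mul, add_zero, map_intCast]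
    exact H.hd
  have u4 : PadicInt.toZMod η4 ≠ 0 := by
    rw [hη4, map_cf]
    exact H.hl _
  have i2 : rb W Q0 Q2 Q3 = p * (Q0 * η3 - 4 * W ^ 2 * η4) := by
    rw [rb, q2, q3]; ring
  have i3 : rc W Q0 Q1 Q2 Q3 = p * (Q0 ^ 2 * η4 + p * (W ^ 2 * η3 ^ 2 - 4 * W ^ 2 * η2 * η4)) := by
    rw [rc, q1, q2, q3]; ring
  refine ⟨⟨av_na' _, norm_p_pos, norm_p_lt, fun x hx => padic_disc x hx, fun x => padic_nsq x,
      ?_, ?_, ?_, ?_, ?_, ?_, ?_⟩, ?_, u0⟩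
  · rw [av_apply, RingHom.id_apply]; exact n2
  · rw [av_apply, RingHom.id_apply]; exact n3
  · rw [av_apply, RingHom.id_apply]; exact n5
  · rw [av_apply, RingHom.id_apply]; exact n7
  · have : sA (Q1 : ℚ_[p]) 0 = (Q1 : ℚ_[p]) := by unfold sA; ring
    rw [this, av_apply, RingHom.id_apply, coe_norm, q1, norm_mul, PadicInt.norm_p, ← Padic.norm_p]
    exact mul_le_of_le_one_right (norm_nonneg _) (PadicInt.norm_le_one _)
  · have : sB (Q1 : ℚ_[p]) ((rb W Q0 Q2 Q3 : ℤ_[p]) : ℚ_[p]) 0 =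
      ((rb W Q0 Q2 Q3 : ℤ_[p]) : ℚ_[p]) := by unfold sB; ring
    rw [this, av_apply, RingHom.id_apply, coe_norm, i2, norm_mul, PadicInt.norm_p, ← Padic.norm_p]
    exact mul_le_of_le_one_right (norm_nonneg _) (PadicInt.norm_le_one _)
  · have : sC (Q1 : ℚ_[p]) ((rb W Q0 Q2 Q3 : ℤ_[p]) : ℚ_[p])
        ((rc W Q0 Q1 Q2 Q3 : ℤ_[p]) : ℚ_[p]) 0 = ((rc W Q0 Q1 Q2 Q3 : ℤ_[p]) : ℚ_[p]) := by
      unfold sC; ring
    have u1 : ‖Q0 ^ 2 * η4 + p * (W ^ 2 * η3 ^ 2 - 4 * W ^ 2 * η2 * η4)‖ = 1 := by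
      rw [← red_one, map_add, map_mul _ (p : ℤ_[p]), toZ_p, zero_mul, add_zero, map_mul, map_pow]
      exact mul_ne_zero (pow_ne_zero 2 (red_one.2 u0)) u4
    rw [this, av_apply, RingHom.id_apply, coe_norm, i3, norm_mul, u1, mul_one, PadicInt.norm_p,
      ← Padic.norm_p]
  · intro hW
    have hWq : (W : ℚ_[p]) ≠ 0 := ne_of_one hW
    have e1 : 4 * (W : ℚ_[p]) ^ 2 * xs (W : ℚ_[p]) (Q0 : ℚ_[p]) (Q1 : ℚ_[p]) =
        ((Q0 ^ 2 + p * (-(4 * W ^ 2 * η2)) : ℤ_[p]) : ℚ_[p]) := by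
      unfold xs
      rw [q1]
      push_cast
      simp only [k4]
      field_simp
      ring
    have u3 : ‖(Q0 ^ 2 + p * (-(4 * W ^ 2 * η2)) : ℤ_[p])‖ = 1 := by
      rw [← red_one, map_add, map_mul _ (p : ℤ_[p]), toZ_p, zero_mul, add_zero, map_pow]
      exact pow_ne_zero 2 (red_one.2 u0)
    have e2 := congrArg norm e1
    rw [coe_norm, u3, norm_mul, norm_mul, norm_pow, coe_norm, hW, one_pow, mul_one,
      show (4 : ℚ_[p]) = 2 ^ 2 by norm_num, norm_pow, n2, one_pow, one_mul] at e2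
    exact e2

/-- the resolvent of the fibre through a point over `K` -/
theorem G2.key {K : Type*} [Field K] (H : G2 p c h a b e d) {σ : K →+* ℚ_[p]}
    {x y w : K} (hxy : w ^ 2 = F4 c x y) :
    Cu (av σ) ‖(p : ℚ_[p])‖ (tA (w, tq c x y)) (tB (w, tq c x y)) (tC (w, tq c x y)) 0 ∧
      (‖σ w‖ = 1 → ‖σ (tX (w, tq c x y) - 0)‖ = 1) := by
  have hm : (σ w) ^ 2 = F4 c (σ x) (σ y) := by rw [← map_pow, hxy, map_F4]
  obtain ⟨X0, Y0, W0, e1, e2, e3, e4⟩ := H.int hm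
  obtain ⟨k1, k2, -⟩ := H.cu X0 Y0 W0
  have q : ∀ j, ((tq c X0 Y0 j : ℤ_[p]) : ℚ_[p]) = σ (tq c x y j) := by
    intro j
    rw [tq_coe, map_tq, e1, e2]
  have kb : ((rb W0 (tq c X0 Y0 0) (tq c X0 Y0 2) (tq c X0 Y0 3) : ℤ_[p]) : ℚ_[p]) =
      σ (tB (w, tq c x y)) := by
    have : tB (w, tq c x y) = rb w (tq c x y 0) (tq c x y 2) (tq c x y 3) := rfl
    rw [this]
    unfold rb
    have k4 : ((4 : ℤ_[p]) : ℚ_[p]) = 4 := map_ofNat (PadicInt.Coe.ringHom (p := p)) 4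
    push_cast
    simp only [k4, q, map_sub, map_mul, map_pow, map_ofNat, ← e3]
  have kc : ((rc W0 (tq c X0 Y0 0) (tq c X0 Y0 1) (tq c X0 Y0 2) (tq c X0 Y0 3) : ℤ_[p]) :
      ℚ_[p]) = σ (tC (w, tq c x y)) := by
    have : tC (w, tq c x y) = rc w (tq c x y 0) (tq c x y 1) (tq c x y 2) (tq c x y 3) := rfl
    rw [this]
    unfold rc
    have k4 : ((4 : ℤ_[p]) : ℚ_[p]) = 4 := map_ofNat (PadicInt.Coe.ringHom (p := p)) 4
    push_cast
    simp only [k4, q, map_sub, map_add, map_mul, map_pow, map_ofNat, ← e3]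
  rw [q 1, kb, kc] at k1
  have k1' : Cu (av (RingHom.id ℚ_[p])) ‖(p : ℚ_[p])‖ (σ (tA (w, tq c x y)))
      (σ (tB (w, tq c x y))) (σ (tC (w, tq c x y))) (σ 0) := by
    rw [map_zero]; exact k1
  refine ⟨Cu.of_map σ k1', fun hw => ?_⟩
  rw [sub_zero]
  have hW0 : ‖W0‖ = 1 := by rw [← coe_norm, ← e3]; exact hw
  have k3 := k2 hW0
  rw [q 1, q 0, ← e3] at k3
  have : tX (w, tq c x y) = xs w (tq c x y 0) (tq c x y 1) := rfl
  rw [this]
  have e6 : σ (xs w (tq c x y 0) (tq c x y 1)) =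
      xs (σ w) (σ (tq c x y 0)) (σ (tq c x y 1)) := by simp [xs, map_ofNat]
  rw [e6]
  exact k3

end loc

variable {K : Type*} [Field K] [CharZero K] {ι : Type*} [Fintype ι] {p : ι → ℕ}
  [hp : ∀ i, Fact (p i).Prime] {σ : ∀ i, K →+* ℚ_[p i]}
variable {c : Fin 5 → Fin 5 → ℤ} {h : ι → Fin 5 → Fin 5 → ℤ} {a b e d : ι → ℤ}

/-- continuity of the second ordinate -/
lemma near_sqrt {L : Type*} [NontriviallyNormedField L] [CompleteSpace L] [CharZero L]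
    {F : L → L} (hF : Continuous F) {X W : L} (hW : W ^ 2 = F X) (hW0 : W ≠ 0) {η : ℝ}
    (hη : 0 < η) : ∃ δ : ℝ, 0 < δ ∧ ∀ x : L, ‖x - X‖ < δ →
      ∃ Z : L, ‖Z - W‖ < min η ‖W‖ ∧ Z ^ 2 = F x := by
  obtain ⟨δ, hδ, hs⟩ := exists_sqrt hW0 (ε := min η ‖W‖) (lt_min hη (norm_pos_iff.2 hW0))
  have h1 : ∀ᶠ x in 𝓝 X, ‖F x - W ^ 2‖ < δ := by
    have h2 : Tendsto (fun x => ‖F x - W ^ 2‖) (𝓝 X) (𝓝 0) := by
      have := ((hF.tendsto X).sub_const (W ^ 2)).norm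
      rwa [← hW, sub_self, norm_zero] at this
    exact h2.eventually_lt_const hδ
  obtain ⟨δ', hδ', hb⟩ := Metric.eventually_nhds_iff_ball.1 h1
  exact ⟨δ', hδ', fun x hx => hs _ (hb x (mem_ball_iff_norm.2 hx))⟩

/-- **Moves in the direction of the second coordinate.** -/
theorem mv2_y [Nonempty ι] (hinj : Function.Injective p)
    (H : ∀ i, G2 (p i) c (h i) (a i) (b i) (e i) (d i))
    {X Y W : ∀ i, ℚ_[p i]} (hC : Clo σ c X Y W) (hW : ∀ i, ‖W i‖ = 1) {Y' W' : ∀ i, ℚ_[p i]}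
    (h' : ∀ i, W' i ^ 2 = F4 c (X i) (Y' i)) (hW' : ∀ i, W' i ≠ 0) : Clo σ c X Y' W' := by
  intro η hη
  choose δ hδ0 hδs using fun i => near_sqrt (F := fun x : ℚ_[p i] => F4 c x (Y' i))
    (by unfold F4; fun_prop) (h' i) (hW' i) (half_pos hη)
  obtain ⟨δ₀, hδ₀, hδ₀i⟩ := fin_min hδ0
  obtain ⟨x, y, w, hxy, hn⟩ := hC (min δ₀ (min η 1)) (lt_min hδ₀ (lt_min hη one_pos))
  have hw1 : ∀ i, ‖σ i w‖ = 1 := by
    intro i
    have h1 := (hn i).2.2.trans_le ((min_le_right _ _).trans (min_le_right _ _))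
    rw [← hW i]
    have e : σ i w = W i + (σ i w - W i) := by ring
    rw [e]
    exact na_eq (v := av (RingHom.id ℚ_[p i])) (av_na' _) (by
      rw [av_apply, av_apply, RingHom.id_apply, RingHom.id_apply, hW i]; exact h1)
  have hw0 : w ≠ 0 := by
    rintro rfl
    obtain ⟨i⟩ := ‹Nonempty ι›
    have := hw1 i
    rw [map_zero, norm_zero] at this
    exact zero_ne_one this
  choose Z hZ1 hZ2 using fun i => hδs i (σ i x)
    ((hn i).1.trans_le ((min_le_left _ _).trans (hδ₀i i)))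
  have hZ0 : ∀ i, Z i ≠ 0 := by
    intro i h0
    have := (hZ1 i).trans_le (min_le_right _ _)
    rw [h0, zero_sub, norm_neg] at this
    exact lt_irrefl _ this
  obtain ⟨s, z, g1, g2⟩ := fib_core hinj (θ := (w, tq c x y)) hw0 (e := fun _ => 0)
    (fun i => ((H i).key hxy).1)
    (fun i => ((H i).key hxy).2 (hw1 i)) (t := fun i => Y' i - σ i y) (Y := Z) (fun i => by
      have e1 : (fun j => σ i ((tq c x y) j)) = tq c (σ i x) (σ i y) := by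
        funext j
        exact map_tq c (σ i) x y j
      rw [e1, qv_tq c (show (σ i w) ^ 2 = F4 c (σ i x) (σ i y) by
        rw [← map_pow, ← map_F4]; exact congrArg _ hxy), hZ2]
      congr 1
      ring) hZ0 (half_pos hη)
  refine ⟨x, y + s, z, ?_, fun i => ⟨?_, ?_, ?_⟩⟩
  · rw [g1]
    exact qv_tq c hxy s
  · exact (hn i).1.trans_le ((min_le_right _ _).trans (min_le_left _ _))
  · have := (g2 i).1
    have e1 : σ i (y + s) - Y' i = σ i s - (Y' i - σ i y) := by rw [map_add]; ring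
    rw [e1]
    linarith
  · have k1 := (g2 i).2
    have k2 := (hZ1 i).trans_le (min_le_left _ _)
    have := norm_sub_le_norm_sub_add_norm_sub (σ i z) (Z i) (W' i)
    linarith

end Pool.Agent.Y720.MZ
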