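import Pool.Agent.Y720.WC.C2
import Pool.Agent.Y720.WL.Np

/-!
# Conic bundles with cuspidal reduction in the other direction: density at the primes (helper720)
-/

set_option autoImplicit false
set_option linter.unusedVariables false
set_option linter.unusedSectionVars false

open WeierstrassCurve Filter Topology

namespace Pool.Agent.Y720.MZ

/-- the discriminant of the conic over `y` -/
def dcn (c : Fin 5 → Fin 5 → ℤ) {R : Type*} [CommRing R] (y : R) : R :=
  rf c y 1 ^ 2 - 4 * rf c y 2 * rf c y 0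

lemma map_dcn (c : Fin 5 → Fin 5 → ℤ) {R S : Type*} [CommRing R] [CommRing S] (f : R →+* S)
    (y : R) : f (dcn c y) = dcn c (f y) := by
  simp only [dcn, map_sub, map_mul, map_pow, map_ofNat, map_rf]

section con

variable {K : Type*} [Field K] [CharZero K] {V : Type*} [Finite V] {L : V → Type*}
  [∀ v, NontriviallyNormedField (L v)] [∀ v, CompleteSpace (L v)] {s : ∀ v, K →+* L v}
  {c : Fin 5 → Fin 5 → ℤ}

/-- weak approximation on a conic -/
theorem con_mv (hden : Dn s) (hr : ∀ j, c 3 j = 0 ∧ c 4 j = 0) {x y w : K}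
    (hxy : w ^ 2 = F4 c x y) (hD : dcn c y ≠ 0) {X W : ∀ v, L v}
    (hX : ∀ v, W v ^ 2 = F4 c (X v) (s v y)) (hW : ∀ v, W v ≠ 0) {η : ℝ} (hη : 0 < η) :
    ∃ x' w' : K, w' ^ 2 = F4 c x' y ∧ ∀ v, ‖s v x' - X v‖ < η ∧ ‖s v w' - W v‖ < η := by
  have hcz : ∀ v, CharZero (L v) := fun v => charZero_of_injective_ringHom (s v).injective
  have h1 : ∀ v, ∃ X' W' : L v, X' ≠ s v x ∧ ‖X' - X v‖ < η / 2 ∧ ‖W' - W v‖ < η / 2 ∧
      W' ^ 2 = F4 c X' (s v y) := by
    intro v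
    have := hcz v
    obtain ⟨t', Y', k1, k2, k3, k4⟩ := perturb' (g := fun t : L v => F4 c t (s v y))
      (by unfold F4; fun_prop) (hX v) (hW v) (half_pos hη) (B := {s v x}) (Set.finite_singleton _)
    exact ⟨t', Y', fun h0 => k1 (by rw [h0]; exact Set.mem_singleton _), k2, k3, k4⟩
  choose X' W' a1 a2 a3 a4 using h1
  obtain ⟨u, Z, g1, g2⟩ := conic_wa' hden (w := w) (q₀ := 2 * rf c y 2 * x + rf c y 1)
    (q₁ := rf c y 2) (t := fun v => X' v - s v x) (Y := W')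
    (by
      intro h0
      apply hD
      rw [dcn, ← h0, hxy, F4_rf hr]
      ring)
    (fun v => sub_ne_zero.2 (a1 v)) (fun v => by
      have e1 : F4 c (X' v) (s v y) = F4 c (s v x + (X' v - s v x)) (s v y) := by
        rw [add_sub_cancel]
      rw [a4, e1, F4_rf hr, ← map_pow (s v), hxy, map_F4, F4_rf hr]
      simp only [map_add, map_mul, map_ofNat, map_rf]
      ring) (half_pos hη)
  refine ⟨x + u, Z, ?_, fun v => ⟨?_, ?_⟩⟩
  · rw [g1, hxy, F4_rf hr, F4_rf hr]; ring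
  · have e1 : s v (x + u) - X v = (s v u - (X' v - s v x)) + (X' v - X v) := by
      rw [map_add]; ring
    rw [e1]
    have := norm_add_le (s v u - (X' v - s v x)) (X' v - X v)
    have := (g2 v).1
    have := a2 v
    linarith
  · have := norm_sub_le_norm_sub_add_norm_sub (s v Z) (W' v) (W v)
    have := (g2 v).2
    have := a3 v
    linarith

end con

section loc

variable {p : ℕ} [hp : Fact p.Prime] {c h : Fin 5 → Fin 5 → ℤ} {a b e d : ℤ}

lemma G2.two (H : G2 p c h a b e d) : (2 : ZMod p) ≠ 0 := by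
  have := H.nz (n := 2) (by norm_num) (by norm_num)
  exact_mod_cast this

lemma G2.red (H : G2 p c h a b e d) (X Y : ℤ_[p]) : PadicInt.toZMod (F4 c X Y) =
    a * PadicInt.toZMod X ^ 2 + b * PadicInt.toZMod X + e + d * PadicInt.toZMod Y := by
  rw [H.split, map_add, map_mul _ (p : ℤ_[p]), toZ_p, zero_mul, add_zero]
  simp only [map_add, map_mul, map_pow, map_intCast]

/-- the conic over a unit point is smooth -/
lemma G2.disc (H : G2 p c h a b e d) {X Y W : ℤ_[p]} (hW : W ^ 2 = F4 c X Y) (hW1 : ‖W‖ = 1) :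
    dcn c Y ≠ 0 := by
  intro h0
  apply H.ha
  have h1 := congrArg PadicInt.toZMod h0
  have h2 := congrArg PadicInt.toZMod hW
  rw [H.red, map_pow] at h2
  obtain ⟨r2, r1, r0⟩ := H.rf2 Y
  rw [dcn, r2, r1, r0] at h1
  simp only [map_sub, map_mul, map_pow, map_add, map_ofNat, toZ_p, map_zero, zero_mul,
    add_zero, map_intCast] at h1
  have w0 : PadicInt.toZMod W ≠ 0 := red_one.2 hW1
  set x := PadicInt.toZMod X
  set y := PadicInt.toZMod Y
  set w := PadicInt.toZMod W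
  have h22 := H.two
  refine ⟨(2 * a * x + b) / (2 * w), ?_⟩
  field_simp
  linear_combination (4 * (a : ZMod p)) * h2 - h1

/-- two values which are nonzero squares -/
lemma sq_two (h11 : 11 ≤ p) (k : ZMod p) : ∃ s r : ZMod p, s ≠ 0 ∧ r ≠ 0 ∧ r ^ 2 = s ^ 2 + k := by
  have nz : ∀ n : ℕ, n ≠ 0 → n < 11 → (n : ZMod p) ≠ 0 := by
    intro n h0 h1 h2
    rw [ZMod.natCast_eq_zero_iff] at h2
    have := Nat.le_of_dvd (Nat.pos_of_ne_zero h0) h2
    omega
  have n2 : (2 : ZMod p) ≠ 0 := by exact_mod_cast nz 2 (by norm_num) (by norm_num)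
  have n3 : (3 : ZMod p) ≠ 0 := by exact_mod_cast nz 3 (by norm_num) (by norm_num)
  have n5 : (5 : ZMod p) ≠ 0 := by exact_mod_cast nz 5 (by norm_num) (by norm_num)
  have key : ∀ m : ZMod p, m ≠ 0 → m ^ 2 ≠ k → m ^ 2 ≠ -k →
      ∃ s r : ZMod p, s ≠ 0 ∧ r ≠ 0 ∧ r ^ 2 = s ^ 2 + k := by
    intro m h0 h1 h2
    refine ⟨(k / m - m) / 2, (k / m + m) / 2, div_ne_zero ?_ n2, div_ne_zero ?_ n2, ?_⟩
    · intro h3
      apply h1
      field_simp at h3
      linear_combination -h3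
    · intro h3
      apply h2
      field_simp at h3
      linear_combination h3
    · field_simp
      ring
  have two : ∀ z : ZMod p, (1 : ZMod p) ^ 2 = z → (2 : ZMod p) ^ 2 ≠ z ∧ (3 : ZMod p) ^ 2 ≠ z := by
    intro z hz
    subst hz
    refine ⟨fun h => n3 (by linear_combination h), fun h => ?_⟩
    exact mul_ne_zero (mul_ne_zero n2 n2) n2 (by linear_combination h)
  have two' : ∀ z : ZMod p, (2 : ZMod p) ^ 2 = z → (3 : ZMod p) ^ 2 ≠ z := by
    intro z hz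
    subst hz
    exact fun h => n5 (by linear_combination h)
  by_cases a1 : (1 : ZMod p) ^ 2 = k
  · obtain ⟨b1, b2⟩ := two _ a1
    by_cases a2 : (2 : ZMod p) ^ 2 = -k
    · exact key 3 n3 b2 (two' _ a2)
    · exact key 2 n2 b1 a2
  · by_cases a2 : (1 : ZMod p) ^ 2 = -k
    · obtain ⟨b1, b2⟩ := two _ a2
      by_cases a3 : (2 : ZMod p) ^ 2 = k
      · exact key 3 n3 (two' _ a3) b2
      · exact key 2 n2 a3 b1
    · exact key 1 one_ne_zero a1 a2

end loc

variable {K : Type*} [Field K] [CharZero K] {ι : Type*} [Fintype ι] {p : ι → ℕ}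
  [hp : ∀ i, Fact (p i).Prime] {σ : ∀ i, K →+* ℚ_[p i]}
variable {c : Fin 5 → Fin 5 → ℤ} {h : ι → Fin 5 → Fin 5 → ℤ} {a b e d : ι → ℤ}

/-- **Moves along the conics.** -/
theorem mv2_x [Nonempty ι] (hinj : Function.Injective p)
    (H : ∀ i, G2 (p i) c (h i) (a i) (b i) (e i) (d i))
    {X Y W : ∀ i, ℚ_[p i]} (hC : Clo σ c X Y W) (hW : ∀ i, ‖W i‖ = 1) {X' W' : ∀ i, ℚ_[p i]}
    (h' : ∀ i, W' i ^ 2 = F4 c (X' i) (Y i)) (hW' : ∀ i, W' i ≠ 0) : Clo σ c X' Y W' := by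
  intro η hη
  choose δ hδ0 hδs using fun i => near_sqrt (F := fun y : ℚ_[p i] => F4 c (X' i) y)
    (by unfold F4; fun_prop) (h' i) (hW' i) (half_pos hη)
  obtain ⟨δ₀, hδ₀, hδ₀i⟩ := fin_min hδ0
  obtain ⟨x, y, w, hxy, hn⟩ := hC (min δ₀ (min η 1)) (lt_min hδ₀ (lt_min hη one_pos))
  have hw1 : ∀ i, ‖σ i w‖ = 1 := by
    intro i
    have h1 := (hn i).2.2.trans_le ((min_le_right _ _).trans (min_le_right _ _))
    rw [← hW i]
    have e : σ i w = W i + (σ i w - W i) := by ring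
    rw [e]
    exact na_eq (v := av (RingHom.id ℚ_[p i])) (av_na' _) (by
      rw [av_apply, av_apply, RingHom.id_apply, RingHom.id_apply, hW i]; exact h1)
  obtain ⟨i₀⟩ := ‹Nonempty ι›
  have hD : dcn c y ≠ 0 := by
    intro h0
    have hm : (σ i₀ w) ^ 2 = F4 c (σ i₀ x) (σ i₀ y) := by rw [← map_pow, hxy, map_F4]
    obtain ⟨X0, Y0, W0, e1, e2, e3, e4⟩ := (H i₀).int hm
    refine (H i₀).disc e4 (by rw [← coe_norm, ← e3]; exact hw1 i₀) ?_
    have h2 : ((dcn c Y0 : ℤ_[p i₀]) : ℚ_[p i₀]) = ((0 : ℤ_[p i₀]) : ℚ_[p i₀]) := by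
      have := map_dcn c (PadicInt.Coe.ringHom (p := p i₀)) Y0
      have h3 : ((dcn c Y0 : ℤ_[p i₀]) : ℚ_[p i₀]) = dcn c (Y0 : ℚ_[p i₀]) := this
      rw [h3, ← e2, ← map_dcn, h0, map_zero]
      rfl
    exact PadicInt.ext h2
  choose Z hZ1 hZ2 using fun i => hδs i (σ i y)
    ((hn i).2.1.trans_le ((min_le_left _ _).trans (hδ₀i i)))
  have hZ0 : ∀ i, Z i ≠ 0 := by
    intro i h0
    have := (hZ1 i).trans_le (min_le_right _ _)
    rw [h0, zero_sub, norm_neg] at this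
    exact lt_irrefl _ this
  obtain ⟨x', w', g1, g2⟩ := con_mv (s := σ) (dn_p hinj σ) (H i₀).row hxy hD hZ2 hZ0 (half_pos hη)
  refine ⟨x', y, w', g1, fun i => ⟨?_, ?_, ?_⟩⟩
  · have := (g2 i).1
    linarith
  · exact (hn i).2.1.trans_le ((min_le_right _ _).trans (min_le_left _ _))
  · have k1 := (g2 i).2
    have k2 := (hZ1 i).trans_le (min_le_left _ _)
    have := norm_sub_le_norm_sub_add_norm_sub (σ i w') (Z i) (W' i)
    linarith

/-- the points which are reached -/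
theorem dense2' [Nonempty ι] (hinj : Function.Injective p)
    (H : ∀ i, G2 (p i) c (h i) (a i) (b i) (e i) (d i)) {x₀ y₀ w₀ : K}
    (h0 : w₀ ^ 2 = F4 c x₀ y₀) (hw : ∀ i, ‖σ i w₀‖ = 1) {X Y W : ∀ i, ℚ_[p i]}
    (hX : ∀ i, W i ^ 2 = F4 c (X i) (Y i)) (hW : ∀ i, W i ≠ 0) : Clo σ c X Y W := by
  have hm : ∀ i, (σ i w₀) ^ 2 = F4 c (σ i x₀) (σ i y₀) := fun i => by
    rw [← map_pow, h0, map_F4]
  choose X0 Y0 W0 e1 e2 e3 e4 using fun i => (H i).int (hm i)
  choose X1 Y1 W1 f1 f2 f3 f4 using fun i => (H i).int (hX i)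
  have hC : Clo σ c (fun i => (X0 i : ℚ_[p i])) (fun i => (Y0 i : ℚ_[p i])) (fun i => σ i w₀) := by
    intro η hη
    refine ⟨x₀, y₀, w₀, h0, fun i => ?_⟩
    dsimp only
    rw [e1, e2, sub_self, sub_self, sub_self, norm_zero]
    exact ⟨hη, hη, hη⟩
  choose s r s0 r0 sr using fun i => sq_two (H i).h11
    (((a i : ZMod (p i)) * PadicInt.toZMod (X1 i) ^ 2 + (b i : ZMod (p i)) *
      PadicInt.toZMod (X1 i)) - ((a i : ZMod (p i)) * PadicInt.toZMod (X0 i) ^ 2 +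
        (b i : ZMod (p i)) * PadicInt.toZMod (X0 i)))
  choose Y2 hY2 using fun i => lift_red ((s i ^ 2 - ((a i : ZMod (p i)) *
    PadicInt.toZMod (X0 i) ^ 2 + (b i : ZMod (p i)) * PadicInt.toZMod (X0 i) + (e i : ZMod (p i)))) /
      (d i : ZMod (p i)))
  have k : ∀ i, (d i : ZMod (p i)) * PadicInt.toZMod (Y2 i) = (s i ^ 2 - ((a i : ZMod (p i)) *
      PadicInt.toZMod (X0 i) ^ 2 + (b i : ZMod (p i)) * PadicInt.toZMod (X0 i) +
        (e i : ZMod (p i)))) := by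
    intro i
    rw [hY2, mul_div_cancel₀ _ (H i).hd]
  choose W2 u1 u2 using fun i => unit_sq (a := F4 c (X0 i) (Y2 i)) (H i).two (s0 i) (by
    rw [(H i).red]; linear_combination k i)
  choose W3 v1 v2 using fun i => unit_sq (a := F4 c (X1 i) (Y2 i)) (H i).two (r0 i) (by
    rw [(H i).red, sr]; linear_combination k i)
  have c1 := mv2_y hinj H hC hw (Y' := fun i => (Y2 i : ℚ_[p i])) (W' := fun i => (W2 i : ℚ_[p i]))
    (fun i => by rw [← F4_coe, ← u1]; push_cast; rfl) (fun i => ne_of_one (u2 i))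
  have c2 := mv2_x hinj H c1 (fun i => by rw [coe_norm]; exact u2 i)
    (X' := fun i => (X1 i : ℚ_[p i])) (W' := fun i => (W3 i : ℚ_[p i]))
    (fun i => by rw [← F4_coe, ← v1]; push_cast; rfl) (fun i => ne_of_one (v2 i))
  have c3 := mv2_y hinj H c2 (fun i => by rw [coe_norm]; exact v2 i)
    (Y' := Y) (W' := W) (fun i => by rw [hX, f1]) hW
  have e : X = fun i => (X1 i : ℚ_[p i]) := funext f1
  rw [e]
  exact c3

end Pool.Agent.Y720.MZ
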