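import Pool.Agent.Y720.WC.C3
import Pool.Agent.Y720.WL.LemR

/-!
# Curves with cuspidal reduction of type II have no torsion (helper720)
-/

set_option autoImplicit false
set_option linter.unusedVariables false
set_option linter.unusedSectionVars false

open WeierstrassCurve Filter Topology

namespace Pool.Agent.Y720.MZ

section tf

variable {K : Type*} [Field K] [CharZero K] [DecidableEq K] {a b c e : K}
  {p : ℕ} [hp : Fact p.Prime] {σ : K →+* ℚ_[p]}

/-- **No torsion.** -/
theorem Cu.tf (h : Cu (av σ) ‖(p : ℚ_[p])‖ a b c e) {P : Pt a b c} (hP : P ≠ 0) {n : ℕ}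
    (hn : n ≠ 0) : n • P ≠ 0 := by
  have hv := h.na
  have hε := h.ε0
  have hε1 := h.ε1
  have hpp : ∀ x : K, av σ ((p : K) * x) = ‖(p : ℚ_[p])‖ * av σ x := fun x => by
    rw [map_mul, av_p]
  -- the parameter of `P` is not zero
  have hT : Te e P ≠ 0 := by
    rcases P with _ | ⟨x, y, hxy⟩
    · exact absurd rfl hP
    · obtain ⟨h1, h2⟩ := h.shape (cv_ns.1 hxy).1
      rw [Te_some]
      refine div_ne_zero ?_ ?_
      · intro h0
        rw [h0, map_zero] at h1
        linarith
      · intro h0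
        rw [h0, map_zero] at h2
        have : 0 < av σ (x - e) ^ 3 := by positivity
        rw [← h2] at this
        norm_num at this
  obtain ⟨k, m, hm, rfl⟩ := Nat.exists_eq_pow_mul_and_not_dvd hn p hp.out.ne_one
  -- the part prime to `p`
  have vm1 : av σ ((m : K)) = 1 := by
    rw [av_apply, map_natCast, Padic.norm_natCast_eq_one_iff]
    exact (Nat.Prime.coprime_iff_not_dvd hp.out).2 hm
  set Q := m • P with hQ
  have hTQ : av σ (Te e Q) = av σ (Te e P) := by
    have b1 := h.mul_sub P m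
    have h0 := (av σ).pos hT
    have h1 := h.Te_le P
    have e1 : Te e Q = (m : K) * Te e P + (Te e Q - m * Te e P) := by ring
    have e2 : av σ ((m : K) * Te e P) = av σ (Te e P) := by rw [map_mul, vm1, one_mul]
    rw [e1, na_eq hv, e2]
    rw [e2]
    refine b1.trans_lt ?_
    have : ‖(p : ℚ_[p])‖ * (av σ (Te e P) * av σ (Te e P)) ≤ ‖(p : ℚ_[p])‖ * (1 * av σ (Te e P)) := by
      gcongr
    have h3 : ‖(p : ℚ_[p])‖ * av σ (Te e P) < 1 * av σ (Te e P) :=
      mul_lt_mul_of_pos_right hε1 h0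
    linarith
  have hpos : 0 < av σ (Te e (p ^ k • Q)) := by
    have h0 : 0 < av σ (Te e Q) := by rw [hTQ]; exact (av σ).pos hT
    rcases (h.Te_le Q).lt_or_eq with hlt | heq
    · have key : ∀ k : ℕ, av σ (Te e (p ^ k • Q)) = ‖(p : ℚ_[p])‖ ^ k * av σ (Te e Q) := by
        intro k
        induction k with
        | zero => simp
        | succ k ih =>
          set R := p ^ k • Q with hR
          have e0 : p ^ (k + 1) • Q = p • R := by rw [hR, pow_succ', mul_smul]
          have hR1 : av σ (Te e R) < 1 := by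
            rw [ih]
            calc ‖(p : ℚ_[p])‖ ^ k * av σ (Te e Q) ≤ 1 * av σ (Te e Q) := by
                  gcongr; exact pow_le_one₀ hε.le hε1.le
              _ < 1 := by rw [one_mul]; exact hlt
          have hR0 : 0 < av σ (Te e R) := by rw [ih]; positivity
          have hR2 := h.disc _ hR1
          have b1 := h.mul_sub R p
          have e1 : Te e (p • R) = (p : K) * Te e R + (Te e (p • R) - p * Te e R) := by ring
          rw [e0, e1, na_eq hv, hpp, ih, pow_succ']
          · ring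
          · rw [hpp]
            refine b1.trans_lt ?_
            have : ‖(p : ℚ_[p])‖ * (av σ (Te e R) * av σ (Te e R)) ≤
                ‖(p : ℚ_[p])‖ * (‖(p : ℚ_[p])‖ * av σ (Te e R)) := by gcongr
            have h3 : ‖(p : ℚ_[p])‖ * av σ (Te e R) < 1 * av σ (Te e R) :=
              mul_lt_mul_of_pos_right hε1 hR0
            nlinarith
      rw [key]; positivity
    · rw [h.pow_size heq]; positivity
  intro h0
  rw [mul_smul, ← hQ] at h0
  rw [h0, Te_zero, map_zero] at hpos
  exact lt_irrefl _ hpos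

lemma dsc_shift {R : Type*} [Field R] (a b c e : R) :
    dsc (sA a e) (sB a b e) (sC a b c e) = dsc a b c := by
  unfold dsc sA sB sC; ring

end tf

section ds

variable {K : Type*} [Field K] {v : AbsoluteValue K ℝ} {a b c e : K} {ε : ℝ}

/-- the discriminant is not zero -/
lemma Cu.dsc_ne (h : Cu v ε a b c e) : dsc a b c ≠ 0 := by
  have hv := h.na
  have hε := h.ε0
  have hε1 := h.ε1
  have hA := h.hA
  have hB := h.hB
  have hC := h.hC
  rw [← dsc_shift a b c e]
  set A := sA a e
  set B := sB a b e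
  set C := sC a b c e
  have v4 : v (4 : K) ≤ 1 := by
    have := na_int hv 4 (K := K)
    exact_mod_cast this
  have v18 : v (18 : K) ≤ 1 := by
    have := na_int hv 18 (K := K)
    exact_mod_cast this
  have v27 : v (27 : K) = 1 := by
    rw [show (27 : K) = 3 ^ 3 by norm_num, map_pow, h.v3, one_pow]
  have hA0 := v.nonneg A
  have hB0 := v.nonneg B
  have b1 : v (A ^ 2 * B ^ 2) ≤ ε ^ 3 := by
    rw [map_mul, map_pow, map_pow]
    calc v A ^ 2 * v B ^ 2 ≤ ε ^ 2 * ε ^ 2 := by gcongr
      _ = ε ^ 4 := by ring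
      _ ≤ ε ^ 3 := pow_le_pow_of_le_one hε.le hε1.le (by norm_num)
  have b2 : v (4 * B ^ 3) ≤ ε ^ 3 := by
    rw [map_mul, map_pow]
    calc v 4 * v B ^ 3 ≤ 1 * ε ^ 3 := by gcongr
      _ = ε ^ 3 := one_mul _
  have b3 : v (4 * A ^ 3 * C) ≤ ε ^ 3 := by
    rw [map_mul, map_mul, map_pow, hC]
    calc v 4 * v A ^ 3 * ε ≤ 1 * ε ^ 3 * ε := by gcongr
      _ = ε ^ 4 := by ring
      _ ≤ ε ^ 3 := pow_le_pow_of_le_one hε.le hε1.le (by norm_num)
  have b4 : v (18 * A * B * C) ≤ ε ^ 3 := by
    rw [map_mul, map_mul, map_mul, hC]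
    calc v 18 * v A * v B * ε ≤ 1 * ε * ε * ε := by gcongr
      _ = ε ^ 3 := by ring
  have b5 : v (27 * C ^ 2) = ε ^ 2 := by rw [map_mul, map_pow, v27, hC, one_mul]
  have e1 : -dsc A B C = 27 * C ^ 2 + (-(A ^ 2 * B ^ 2) + 4 * B ^ 3 + 4 * A ^ 3 * C -
      18 * A * B * C) := by unfold dsc; ring
  have b6 : v (-(A ^ 2 * B ^ 2) + 4 * B ^ 3 + 4 * A ^ 3 * C - 18 * A * B * C) ≤ ε ^ 3 := by
    refine na_sub hv (na_add hv (na_add hv ?_ b2) b3) b4
    rw [v.map_neg]; exact b1
  have h32 : ε ^ 3 < ε ^ 2 := pow_lt_pow_right_of_lt_one₀ hε hε1 (by norm_num)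
  intro h0
  have h1 : v (-dsc A B C) = ε ^ 2 := by
    rw [e1, na_eq hv, b5]
    rw [b5]
    exact b6.trans_lt h32
  rw [h0, neg_zero, map_zero] at h1
  have : 0 < ε ^ 2 := by positivity
  rw [← h1] at this
  exact lt_irrefl _ this

end ds

section io

variable {p : ℕ} [hp : Fact p.Prime] {c h : Fin 5 → Fin 5 → ℤ} {a b e d : ℤ}

/-- the differences have infinite order over the local field -/
theorem G2.io {K : Type*} [Field K] (H : G2 p c h a b e d) {σ : K →+* ℚ_[p]} {x y w : K}
    (hxy : w ^ 2 = F4 c x y) (hw : w ≠ 0) : IOt (σ w, tq c (σ x) (σ y)) := by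
  letI : DecidableEq ℚ_[p] := Classical.decEq _
  have hm : (σ w) ^ 2 = F4 c (σ x) (σ y) := by rw [← map_pow, hxy, map_F4]
  have h1 := (H.key (σ := RingHom.id ℚ_[p]) hm).1
  refine ⟨h1.dsc_ne, fun hns n hn => ?_⟩
  exact h1.tf (by intro h0; exact absurd h0 (by simp)) hn

end io

end Pool.Agent.Y720.MZ
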