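import Pool.Agent.Y720.WC.C4

/-!
# Moves at the real place (helper720)
-/

set_option autoImplicit false
set_option linter.unusedVariables false
set_option linter.unusedSectionVars false

open WeierstrassCurve Filter Topology

namespace Pool.Agent.Y720.MZ

variable {K : Type*} [Field K] [CharZero K] {ι : Type*} [Fintype ι] {p : ι → ℕ}
  [hp : ∀ i, Fact (p i).Prime] {σ : ∀ i, K →+* ℚ_[p i]} {τ : K →+* ℝ}
  {c : Fin 5 → Fin 5 → ℤ} {x₀ y₀ w₀ : K}

/-- the real point is a limit of points over `K` which converge to `(x₀, y₀, w₀)` at the p-adic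
places -/
def Cr (σ : ∀ i, K →+* ℚ_[p i]) (τ : K →+* ℝ) (c : Fin 5 → Fin 5 → ℤ) (x₀ y₀ w₀ : K)
    (X Y W : ℝ) : Prop :=
  ∀ η : ℝ, 0 < η → ∃ x y w : K, w ^ 2 = F4 c x y ∧
    (|τ x - X| < η ∧ |τ y - Y| < η ∧ |τ w - W| < η) ∧
    ∀ i, ‖σ i x - σ i x₀‖ < η ∧ ‖σ i y - σ i y₀‖ < η ∧ ‖σ i w - σ i w₀‖ < η

lemma Cr.self (h : w₀ ^ 2 = F4 c x₀ y₀) : Cr σ τ c x₀ y₀ w₀ (τ x₀) (τ y₀) (τ w₀) := by
  intro η hη
  refine ⟨x₀, y₀, w₀, h, ?_, fun i => ?_⟩
  · simp only [sub_self, abs_zero]; exact ⟨hη, hη, hη⟩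
  · simp only [sub_self, norm_zero]; exact ⟨hη, hη, hη⟩

lemma Cr.lim {X Y W : ℝ} (h : ∀ η : ℝ, 0 < η → ∃ X' Y' W' : ℝ, |X' - X| < η ∧ |Y' - Y| < η ∧
    |W' - W| < η ∧ Cr σ τ c x₀ y₀ w₀ X' Y' W') : Cr σ τ c x₀ y₀ w₀ X Y W := by
  intro η hη
  obtain ⟨X', Y', W', h1, h2, h3, h4⟩ := h (η / 2) (half_pos hη)
  obtain ⟨x, y, w, g1, ⟨g2, g3, g4⟩, g5⟩ := h4 (η / 2) (half_pos hη)
  refine ⟨x, y, w, g1, ⟨?_, ?_, ?_⟩, fun i => ?_⟩
  · have := abs_sub_le (τ x) X' X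
    linarith
  · have := abs_sub_le (τ y) Y' Y
    linarith
  · have := abs_sub_le (τ w) W' W
    linarith
  · obtain ⟨a1, a2, a3⟩ := g5 i
    exact ⟨by linarith, by linarith, by linarith⟩

lemma Cr.swap {X Y W : ℝ} (h : Cr σ τ c x₀ y₀ w₀ X Y W) :
    Cr σ τ (fun i j => c j i) y₀ x₀ w₀ Y X W := by
  intro η hη
  obtain ⟨x, y, w, h1, ⟨h2, h3, h4⟩, h5⟩ := h η hη
  exact ⟨y, x, w, by rw [F4_swap]; exact h1, ⟨h3, h2, h4⟩,
    fun i => ⟨(h5 i).2.1, (h5 i).1, (h5 i).2.2⟩⟩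

/-- continuity of the Taylor coefficients -/
lemma tq_cont (c : Fin 5 → Fin 5 → ℤ) {L : Type*} [NontriviallyNormedField L] (X Y : L) {δ : ℝ}
    (hδ : 0 < δ) : ∃ δ' : ℝ, 0 < δ' ∧ ∀ x y : L, ‖x - X‖ < δ' → ‖y - Y‖ < δ' →
      ∀ j, ‖tq c x y j - tq c X Y j‖ < δ := by
  have hcf : ∀ j, Continuous fun u : L × L => cf c u.1 j := by
    intro j
    unfold cf
    fun_prop
  have h1 : ∀ j : Fin 4, Continuous fun u : L × L => tq c u.1 u.2 j := by
    intro j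
    have c1 := hcf 1
    have c2 := hcf 2
    have c3 := hcf 3
    have c4 := hcf 4
    fin_cases j
    · simp only [tq]
      change Continuous fun u : L × L => cf c u.1 1 + 2 * cf c u.1 2 * u.2 + 3 * cf c u.1 3 * u.2 ^ 2
        + 4 * cf c u.1 4 * u.2 ^ 3
      fun_prop
    · simp only [tq]
      change Continuous fun u : L × L => cf c u.1 2 + 3 * cf c u.1 3 * u.2 + 6 * cf c u.1 4 * u.2 ^ 2
      fun_prop
    · simp only [tq]
      change Continuous fun u : L × L => cf c u.1 3 + 4 * cf c u.1 4 * u.2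
      fun_prop
    · simp only [tq]
      change Continuous fun u : L × L => cf c u.1 4
      fun_prop
  have h2 : ∀ᶠ u in 𝓝 (X, Y), ∀ j : Fin 4, ‖tq c u.1 u.2 j - tq c X Y j‖ < δ := by
    rw [Filter.eventually_all]
    intro j
    have h3 : Tendsto (fun u : L × L => ‖tq c u.1 u.2 j - tq c X Y j‖) (𝓝 (X, Y)) (𝓝 0) := by
      have := (((h1 j).tendsto (X, Y)).sub_const (tq c X Y j)).norm
      simpa using this
    exact h3.eventually_lt_const hδ
  obtain ⟨δ', hδ', hb⟩ := Metric.eventually_nhds_iff_ball.1 h2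
  refine ⟨δ', hδ', fun x y hx hy => hb (x, y) ?_⟩
  rw [Metric.mem_ball, Prod.dist_eq, dist_eq_norm, dist_eq_norm]
  exact max_lt hx hy

/-- **Moves in the second direction at the real place.** -/
theorem Cr.mv_y [Nonempty ι] (hinj : Function.Injective p) (hw₀ : w₀ ≠ 0)
    (hio : ∀ i, IOt (σ i w₀, tq c (σ i x₀) (σ i y₀))) {X Y W : ℝ}
    (hC : Cr σ τ c x₀ y₀ w₀ X Y W) (hW : W ≠ 0)
    (hD : dsc (tA (W, tq c X Y)) (tB (W, tq c X Y)) (tC (W, tq c X Y)) ≠ 0) :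
    ∃ δ : ℝ, 0 < δ ∧ ∀ Y' W' : ℝ, |Y' - Y| < δ → |W' - W| < δ → W' ^ 2 = F4 c X Y' →
      Cr σ τ c x₀ y₀ w₀ X Y' W' := by
  let θ : ∀ v, Lv p v × (Fin 4 → Lv p v) := fun v =>
    match v with
    | none => (W, tq c X Y)
    | some i => (σ i w₀, tq c (σ i x₀) (σ i y₀))
  obtain ⟨δ₀, hδ₀, hb⟩ : WAqL (sv σ τ) θ := hw_r hinj σ τ (θ := θ) (by
    rintro (_ | i)
    · exact hW
    · exact (map_ne_zero (σ i)).2 hw₀) hD hio
  obtain ⟨δ₁, hδ₁, hc1⟩ := tq_cont c X Y hδ₀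
  choose δ₂ hδ₂ hc2 using fun i => tq_cont c (σ i x₀) (σ i y₀) hδ₀
  obtain ⟨δ₃, hδ₃, hδ₃i⟩ := fin_min hδ₂
  have hWp : 0 < |W| := abs_pos.2 hW
  refine ⟨min (δ₀ / 2) |W|, lt_min (half_pos hδ₀) hWp, fun Y' W' hY' hW' he η hη => ?_⟩
  have hW'0 : W' ≠ 0 := by
    rintro rfl
    rw [zero_sub, abs_neg] at hW'
    exact absurd (hW'.trans_le (min_le_right _ _)) (lt_irrefl _)
  obtain ⟨δ₄, hδ₄, hs⟩ := near_sqrt (F := fun x : ℝ => F4 c x Y') (by unfold F4; fun_prop) he hW'0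
    (η := min (η / 2) (δ₀ / 2)) (lt_min (half_pos hη) (half_pos hδ₀))
  set δ := min (min (min (δ₀ / 2) δ₁) (min δ₃ δ₄)) (η / 2) with hδ
  have d0 : δ ≤ δ₀ / 2 := (min_le_left _ _).trans ((min_le_left _ _).trans (min_le_left _ _))
  have d1 : δ ≤ δ₁ := (min_le_left _ _).trans ((min_le_left _ _).trans (min_le_right _ _))
  have d3 : δ ≤ δ₃ := (min_le_left _ _).trans ((min_le_right _ _).trans (min_le_left _ _))
  have d4 : δ ≤ δ₄ := (min_le_left _ _).trans ((min_le_right _ _).trans (min_le_right _ _))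
  have d5 : δ ≤ η / 2 := min_le_right _ _
  obtain ⟨x, y, w, hxy, ⟨r1, r2, r3⟩, hn⟩ := hC δ (lt_min (lt_min (lt_min (half_pos hδ₀) hδ₁)
    (lt_min hδ₃ hδ₄)) (half_pos hη))
  obtain ⟨Z, hZ1, hZ2⟩ := hs (τ x) (by rw [Real.norm_eq_abs]; exact r1.trans_le d4)
  rw [Real.norm_eq_abs] at hZ1
  have hZ3 := hZ1.trans_le ((min_le_left _ _).trans (min_le_left _ _))
  have hZ4 := hZ1.trans_le ((min_le_left _ _).trans (min_le_right _ _))
  have q1 : Z ^ 2 = qv (τ w) (fun j => τ (tq c x y j)) (Y' - τ y) := by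
    have e1 : (fun j => τ (tq c x y j)) = tq c (τ x) (τ y) := by
      funext j
      exact map_tq c τ x y j
    rw [e1, qv_tq c (by rw [← map_pow, hxy, map_F4]), hZ2]
    congr 1
    ring
  have q2 : ∀ i, (σ i w) ^ 2 = qv (σ i w) (fun j => σ i (tq c x y j)) 0 := by
    intro i
    unfold qv
    ring
  obtain ⟨u, Z', g1, g2⟩ := hb (w, tq c x y) (by
      rintro (_ | i)
      · change |τ w - W| < δ₀
        linarith
      · change ‖σ i w - σ i w₀‖ < δ₀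
        have := (hn i).2.2
        linarith) (by
      rintro (_ | i) j
      · change ‖τ (tq c x y j) - tq c X Y j‖ < δ₀
        rw [map_tq]
        exact hc1 _ _ (by rw [Real.norm_eq_abs]; exact r1.trans_le d1)
          (by rw [Real.norm_eq_abs]; exact r2.trans_le d1) j
      · change ‖σ i (tq c x y j) - tq c (σ i x₀) (σ i y₀) j‖ < δ₀
        rw [map_tq]
        exact hc2 i _ _ ((hn i).1.trans_le (d3.trans (hδ₃i i)))
          ((hn i).2.1.trans_le (d3.trans (hδ₃i i))) j)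
    (fun v => match v with
      | none => (Y' - τ y : ℝ)
      | some i => (0 : ℚ_[p i]))
    (fun v => match v with
      | none => (Z : ℝ)
      | some i => (σ i w : ℚ_[p i])) (by
      rintro (_ | i)
      · change |Y' - τ y| < δ₀
        have h1 := hY'.trans_le (min_le_left _ _)
        have := abs_sub_le Y' Y (τ y)
        rw [abs_sub_comm Y (τ y)] at this
        linarith
      · change ‖(0 : ℚ_[p i])‖ < δ₀
        rw [norm_zero]; exact hδ₀) (by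
      rintro (_ | i)
      · change |Z - W| < δ₀
        have h1 := hW'.trans_le (min_le_left _ _)
        have := abs_sub_le Z W' W
        linarith
      · change ‖σ i w - σ i w₀‖ < δ₀
        have := (hn i).2.2
        linarith) (by
      rintro (_ | i)
      · exact q1
      · exact q2 i) (η / 2) (half_pos hη)
  refine ⟨x, y + u, Z', ?_, ⟨?_, ?_, ?_⟩, fun i => ⟨?_, ?_, ?_⟩⟩
  · rw [g1]
    exact qv_tq c hxy u
  · linarith
  · have h1 : |τ u - (Y' - τ y)| < η / 2 := (g2 none).1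
    have e1 : τ (y + u) - Y' = τ u - (Y' - τ y) := by rw [map_add]; ring
    rw [e1]
    linarith
  · have h1 : |τ Z' - Z| < η / 2 := (g2 none).2
    have := abs_sub_le (τ Z') Z W'
    linarith
  · have := (hn i).1
    linarith
  · have h1 : ‖σ i u - 0‖ < η / 2 := (g2 (some i)).1
    have e1 : σ i (y + u) - σ i y₀ = (σ i y - σ i y₀) + (σ i u - 0) := by rw [map_add]; ring
    rw [e1]
    have := norm_add_le (σ i y - σ i y₀) (σ i u - 0)
    have := (hn i).2.1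
    linarith
  · have h1 : ‖σ i Z' - σ i w‖ < η / 2 := (g2 (some i)).2
    have := norm_sub_le_norm_sub_add_norm_sub (σ i Z') (σ i w) (σ i w₀)
    have := (hn i).2.2
    linarith

/-- **Moves along a conic at the real place.** -/
theorem Cr.mv_x [Nonempty ι] (hinj : Function.Injective p) (hr : ∀ j, c 3 j = 0 ∧ c 4 j = 0)
    (hw₀ : w₀ ≠ 0) {X Y W : ℝ} (hC : Cr σ τ c x₀ y₀ w₀ X Y W) (hD : dcn c Y ≠ 0) {X' W' : ℝ}
    (he : W' ^ 2 = F4 c X' Y) (hW' : W' ≠ 0) : Cr σ τ c x₀ y₀ w₀ X' Y W' := by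
  intro η hη
  obtain ⟨δ₁, hδ₁, hs⟩ := near_sqrt (F := fun y : ℝ => F4 c X' y) (by unfold F4; fun_prop) he hW'
    (half_pos hη)
  have hcont : Continuous fun y : ℝ => dcn c y := by unfold dcn rf; fun_prop
  obtain ⟨δ₂, hδ₂, hd⟩ := Metric.eventually_nhds_iff_ball.1 (hcont.continuousAt.eventually_ne hD)
  obtain ⟨i₀⟩ := ‹Nonempty ι›
  have hw₁ : 0 < ‖σ i₀ w₀‖ := norm_pos_iff.2 ((map_ne_zero _).2 hw₀)
  set δ := min (min δ₁ δ₂) (min ‖σ i₀ w₀‖ (η / 2)) with hδ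
  have d1 : δ ≤ δ₁ := (min_le_left _ _).trans (min_le_left _ _)
  have d2 : δ ≤ δ₂ := (min_le_left _ _).trans (min_le_right _ _)
  have d3 : δ ≤ ‖σ i₀ w₀‖ := (min_le_right _ _).trans (min_le_left _ _)
  have d4 : δ ≤ η / 2 := (min_le_right _ _).trans (min_le_right _ _)
  obtain ⟨x, y, w, hxy, ⟨r1, r2, r3⟩, hn⟩ := hC δ (lt_min (lt_min hδ₁ hδ₂)
    (lt_min hw₁ (half_pos hη)))
  have hw : w ≠ 0 := by
    rintro rfl
    have := (hn i₀).2.2
    rw [map_zero, zero_sub, norm_neg] at this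
    exact absurd (this.trans_le d3) (lt_irrefl _)
  obtain ⟨Z, hZ1, hZ2⟩ := hs (τ y) (by rw [Real.norm_eq_abs]; exact r2.trans_le d1)
  rw [Real.norm_eq_abs] at hZ1
  have hZ3 := hZ1.trans_le (min_le_left _ _)
  have hZ0 : Z ≠ 0 := by
    rintro rfl
    rw [zero_sub, abs_neg, ← Real.norm_eq_abs] at hZ1
    exact absurd (hZ1.trans_le (min_le_right _ _)) (lt_irrefl _)
  have hDy : dcn c y ≠ 0 := by
    intro h0
    apply hd (τ y) (by rw [mem_ball_iff_norm, Real.norm_eq_abs]; exact r2.trans_le d2)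
    rw [← map_dcn, h0, map_zero]
  have q2 : ∀ i, (σ i w) ^ 2 = F4 c (σ i x) (σ i y) := fun i => by
    rw [← map_pow, hxy, map_F4]
  obtain ⟨x', w', g1, g2⟩ := con_mv (s := sv σ τ) (dn_all hinj σ τ) hr hxy hDy
    (X := fun v => match v with
      | none => (X' : ℝ)
      | some i => (σ i x : ℚ_[p i]))
    (W := fun v => match v with
      | none => (Z : ℝ)
      | some i => (σ i w : ℚ_[p i])) (by
      rintro (_ | i)
      · exact hZ2
      · exact q2 i) (by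
      rintro (_ | i)
      · exact hZ0
      · exact (map_ne_zero (σ i)).2 hw) (half_pos hη)
  refine ⟨x', y, w', g1, ⟨?_, ?_, ?_⟩, fun i => ⟨?_, ?_, ?_⟩⟩
  · have h1 : |τ x' - X'| < η / 2 := (g2 none).1
    linarith
  · linarith
  · have h1 : |τ w' - Z| < η / 2 := (g2 none).2
    have := abs_sub_le (τ w') Z W'
    linarith
  · have h1 : ‖σ i x' - σ i x‖ < η / 2 := (g2 (some i)).1
    have := norm_sub_le_norm_sub_add_norm_sub (σ i x') (σ i x) (σ i x₀)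
    have := (hn i).1
    linarith
  · have := (hn i).2.1
    linarith
  · have h1 : ‖σ i w' - σ i w‖ < η / 2 := (g2 (some i)).2
    have := norm_sub_le_norm_sub_add_norm_sub (σ i w') (σ i w) (σ i w₀)
    have := (hn i).2.2
    linarith

end Pool.Agent.Y720.MZ
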