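import Pool.Agent.Y720.WC.C5

/-!
# Conic bundles: all the real points are reached (helper720)
-/

set_option autoImplicit false
set_option linter.unusedVariables false
set_option linter.unusedSectionVars false

open WeierstrassCurve Filter Topology

namespace Pool.Agent.Y720.MZ

/-- the discriminant of the quartic -/
def dn4 (c : Fin 5 → Fin 5 → ℤ) {R : Type*} [CommRing R] (x : R) : R :=
  dsc (cf c x 2) (cf c x 1 * cf c x 3 - 4 * cf c x 0 * cf c x 4)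
    (cf c x 1 ^ 2 * cf c x 4 + cf c x 0 * cf c x 3 ^ 2 - 4 * cf c x 0 * cf c x 2 * cf c x 4)

lemma map_dn4 (c : Fin 5 → Fin 5 → ℤ) {R S : Type*} [CommRing R] [CommRing S] (f : R →+* S)
    (x : R) : f (dn4 c x) = dn4 c (f x) := by
  simp only [dn4, dsc, map_add, map_sub, map_mul, map_pow, map_ofNat, map_cf]

lemma dn4_eq (c : Fin 5 → Fin 5 → ℤ) {F : Type*} [Field F] {x y w : F} (h : w ^ 2 = F4 c x y) :
    dsc (tA (w, tq c x y)) (tB (w, tq c x y)) (tC (w, tq c x y)) = dn4 c x := by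
  rw [F4_cf] at h
  set k := cf c x 3 * y + 2 * cf c x 4 * y ^ 2 with hk
  have t0 : tq c x y 0 = cf c x 1 + 2 * cf c x 2 * y + 3 * cf c x 3 * y ^ 2 +
    4 * cf c x 4 * y ^ 3 := rfl
  have t1 : tq c x y 1 = cf c x 2 + 3 * cf c x 3 * y + 6 * cf c x 4 * y ^ 2 := rfl
  have t2 : tq c x y 2 = cf c x 3 + 4 * cf c x 4 * y := rfl
  have t3 : tq c x y 3 = cf c x 4 := rfl
  have a1 : tA (w, tq c x y) = sA (cf c x 2) k := by
    have : tA (w, tq c x y) = tq c x y 1 := rfl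
    rw [this, t1, sA, hk]; ring
  have a2 : tB (w, tq c x y) = sB (cf c x 2) (cf c x 1 * cf c x 3 - 4 * cf c x 0 * cf c x 4) k := by
    have : tB (w, tq c x y) = rb w (tq c x y 0) (tq c x y 2) (tq c x y 3) := rfl
    rw [this, rb, t0, t2, t3, sB, hk]
    linear_combination (-4 * cf c x 4) * h
  have a3 : tC (w, tq c x y) = sC (cf c x 2) (cf c x 1 * cf c x 3 - 4 * cf c x 0 * cf c x 4)
      (cf c x 1 ^ 2 * cf c x 4 + cf c x 0 * cf c x 3 ^ 2 - 4 * cf c x 0 * cf c x 2 * cf c x 4)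
      k := by
    have : tC (w, tq c x y) = rc w (tq c x y 0) (tq c x y 1) (tq c x y 2) (tq c x y 3) := rfl
    rw [this, rc, t0, t1, t2, t3, sC, hk]
    linear_combination ((cf c x 3 + 4 * cf c x 4 * y) ^ 2 -
      4 * (cf c x 2 + 3 * cf c x 3 * y + 6 * cf c x 4 * y ^ 2) * cf c x 4) * h
  rw [a1, a2, a3, dsc_shift]
  rfl

lemma fin_zero {Q : Polynomial ℤ} (hQ : Q ≠ 0) (L : Type*) [Field L] [CharZero L] :
    {x : L | Polynomial.aeval x Q = 0}.Finite := by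
  classical
  have h1 : Q.map (Int.castRingHom L) ≠ 0 :=
    (Polynomial.map_ne_zero_iff (RingHom.injective_int _)).2 hQ
  refine (Q.map (Int.castRingHom L)).roots.toFinset.finite_toSet.subset fun x hx => ?_
  rw [Finset.mem_coe, Multiset.mem_toFinset, Polynomial.mem_roots h1, Polynomial.IsRoot,
    Polynomial.eval_map]
  have h2 : Polynomial.aeval x Q = 0 := hx
  rw [Polynomial.aeval_def] at h2
  exact h2

lemma fin_dn4 {c : Fin 5 → Fin 5 → ℤ} {K : Type*} [Field K] {x₀ : K} (h : dn4 c x₀ ≠ 0)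
    (L : Type*) [Field L] [CharZero L] : {x : L | dn4 c x = 0}.Finite := by
  have hQ : dn4 c (Polynomial.X : Polynomial ℤ) ≠ 0 := by
    intro h0
    apply h
    have e1 : (Polynomial.aeval x₀).toRingHom (dn4 c (Polynomial.X : Polynomial ℤ)) =
        dn4 c x₀ := by
      rw [map_dn4]
      congr 1
      exact Polynomial.aeval_X x₀
    rw [← e1, h0, map_zero]
  refine (fin_zero hQ L).subset fun x hx => ?_
  have e1 : (Polynomial.aeval x).toRingHom (dn4 c (Polynomial.X : Polynomial ℤ)) = dn4 c x := by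
    rw [map_dn4]
    congr 1
    exact Polynomial.aeval_X x
  exact e1.trans hx

lemma fin_dcn {c : Fin 5 → Fin 5 → ℤ} {K : Type*} [Field K] {y₀ : K} (h : dcn c y₀ ≠ 0)
    (L : Type*) [Field L] [CharZero L] : {y : L | dcn c y = 0}.Finite := by
  have hQ : dcn c (Polynomial.X : Polynomial ℤ) ≠ 0 := by
    intro h0
    apply h
    have e1 : (Polynomial.aeval y₀).toRingHom (dcn c (Polynomial.X : Polynomial ℤ)) =
        dcn c y₀ := by
      rw [map_dcn]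
      congr 1
      exact Polynomial.aeval_X y₀
    rw [← e1, h0, map_zero]
  refine (fin_zero hQ L).subset fun x hx => ?_
  have e1 : (Polynomial.aeval x).toRingHom (dcn c (Polynomial.X : Polynomial ℤ)) = dcn c x := by
    rw [map_dcn]
    congr 1
    exact Polynomial.aeval_X x
  exact e1.trans hx

/-- a point of a neighbourhood outside a finite set -/
lemma ex_near {Y : ℝ} {r : ℝ} (hr : 0 < r) {B : Set ℝ} (hB : B.Finite) :
    ∃ Y' : ℝ, |Y' - Y| < r ∧ Y' ∉ B := by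
  obtain ⟨Y', h1, h2⟩ := ((infinite_of_mem_nhds Y (Metric.ball_mem_nhds Y hr)).sdiff hB).nonempty
  refine ⟨Y', ?_, h2⟩
  rw [Metric.mem_ball, Real.dist_eq] at h1
  exact h1

variable {K : Type*} [Field K] [CharZero K] {ι : Type*} [Fintype ι] {p : ι → ℕ}
  [hp : ∀ i, Fact (p i).Prime] {σ : ∀ i, K →+* ℚ_[p i]} {τ : K →+* ℝ}
  {c : Fin 5 → Fin 5 → ℤ} {x₀ y₀ w₀ : K}

/-- the real points over `Y` are limits -/
def Gd2 (σ : ∀ i, K →+* ℚ_[p i]) (τ : K →+* ℝ) (c : Fin 5 → Fin 5 → ℤ) (x₀ y₀ w₀ : K)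
    (Y : ℝ) : Prop :=
  ∀ X W : ℝ, W ^ 2 = F4 c X Y → W ≠ 0 → Cr σ τ c x₀ y₀ w₀ X Y W

lemma Gd2.lim {Y : ℝ} (h : ∀ η : ℝ, 0 < η → ∃ Y' : ℝ, |Y' - Y| < η ∧ Gd2 σ τ c x₀ y₀ w₀ Y') :
    Gd2 σ τ c x₀ y₀ w₀ Y := by
  intro X W he hW
  refine Cr.lim fun η hη => ?_
  obtain ⟨δ, hδ, hs⟩ := near_sqrt (F := fun y : ℝ => F4 c X y) (by unfold F4; fun_prop) he hW hη
  obtain ⟨Y', h1, h2⟩ := h (min δ η) (lt_min hδ hη)
  obtain ⟨Z, hZ1, hZ2⟩ := hs Y' (by rw [Real.norm_eq_abs]; exact h1.trans_le (min_le_left _ _))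
  have hZ0 : Z ≠ 0 := by
    rintro rfl
    rw [zero_sub, norm_neg] at hZ1
    exact absurd (hZ1.trans_le (min_le_right _ _)) (lt_irrefl _)
  rw [Real.norm_eq_abs] at hZ1
  refine ⟨X, Y', Z, by rw [sub_self, abs_zero]; exact hη, h1.trans_le (min_le_right _ _),
    hZ1.trans_le (min_le_left _ _), h2 X Z hZ2 hZ0⟩

lemma Gd2.open [Nonempty ι] (hinj : Function.Injective p) (hr : ∀ j, c 3 j = 0 ∧ c 4 j = 0)
    (hw₀ : w₀ ≠ 0) (hio : ∀ i, IOt (σ i w₀, tq c (σ i x₀) (σ i y₀)))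
    (hE : dn4 c x₀ ≠ 0) (hF : dcn c y₀ ≠ 0) {Y : ℝ} (hY : Gd2 σ τ c x₀ y₀ w₀ Y)
    (hJ : ∃ X : ℝ, 0 < F4 c X Y) :
    ∃ δ : ℝ, 0 < δ ∧ ∀ Y' : ℝ, |Y' - Y| < δ → Gd2 σ τ c x₀ y₀ w₀ Y' := by
  obtain ⟨X₀, hX₀⟩ := hJ
  have hcont : Continuous fun x : ℝ => F4 c x Y := by unfold F4; fun_prop
  have hopen : {x : ℝ | 0 < F4 c x Y} ∈ 𝓝 X₀ :=
    (isOpen_lt continuous_const hcont).mem_nhds hX₀
  obtain ⟨X₁, hX1, hX2⟩ := ((infinite_of_mem_nhds X₀ hopen).sdiff (fin_dn4 hE ℝ)).nonempty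
  have hX1' : 0 < F4 c X₁ Y := hX1
  have hX2' : dn4 c X₁ ≠ 0 := hX2
  set W₁ := Real.sqrt (F4 c X₁ Y)
  have hW1 : W₁ ^ 2 = F4 c X₁ Y := Real.sq_sqrt hX1'.le
  have hW0 : W₁ ≠ 0 := (Real.sqrt_pos.2 hX1').ne'
  obtain ⟨δ₁, hδ₁, hm⟩ := Cr.mv_y hinj hw₀ hio (hY X₁ W₁ hW1 hW0) hW0 (by
    rw [dn4_eq c hW1]; exact hX2')
  obtain ⟨δ₂, hδ₂, hs⟩ := near_sqrt (F := fun y : ℝ => F4 c X₁ y) (by unfold F4; fun_prop) hW1 hW0
    hδ₁
  have key : ∀ Y' : ℝ, |Y' - Y| < min δ₁ δ₂ → dcn c Y' ≠ 0 → Gd2 σ τ c x₀ y₀ w₀ Y' := by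
    intro Y' h1 h2 X W he hW
    obtain ⟨Z, hZ1, hZ2⟩ := hs Y' (by rw [Real.norm_eq_abs]; exact h1.trans_le (min_le_right _ _))
    rw [Real.norm_eq_abs] at hZ1
    exact Cr.mv_x hinj hr hw₀ (hm Y' Z (h1.trans_le (min_le_left _ _))
      (hZ1.trans_le (min_le_left _ _)) hZ2) h2 he hW
  refine ⟨min δ₁ δ₂, lt_min hδ₁ hδ₂, fun Y' h1 => Gd2.lim fun η hη => ?_⟩
  obtain ⟨Y'', h2, h3⟩ := ex_near (Y := Y') (lt_min hη (sub_pos.2 h1)) (fin_dcn hF ℝ)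
  refine ⟨Y'', h2.trans_le (min_le_left _ _), key Y'' ?_ h3⟩
  have h4 := h2.trans_le (min_le_right _ _)
  have := abs_sub_le Y'' Y' Y
  linarith

/-- **All the real points are reached.** -/
theorem real_all [Nonempty ι] (hinj : Function.Injective p) (hr : ∀ j, c 3 j = 0 ∧ c 4 j = 0)
    (h0 : w₀ ^ 2 = F4 c x₀ y₀)
    (hw₀ : w₀ ≠ 0) (hio : ∀ i, IOt (σ i w₀, tq c (σ i x₀) (σ i y₀)))
    (hF : dcn c y₀ ≠ 0) (hconn : IsPreconnected {y : ℝ | ∃ x : ℝ, 0 < F4 c x y})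
    (Y : ℝ) (hY : ∃ x : ℝ, 0 < F4 c x Y) : Gd2 σ τ c x₀ y₀ w₀ Y := by
  have hE : dn4 c x₀ ≠ 0 := by
    obtain ⟨i⟩ := ‹Nonempty ι›
    obtain ⟨h1, -⟩ := hio i
    have hm : (σ i w₀) ^ 2 = F4 c (σ i x₀) (σ i y₀) := by rw [← map_pow, h0, map_F4]
    rw [dn4_eq c hm, ← map_dn4] at h1
    intro h2
    exact h1 (by rw [h2, map_zero])
  set J : Set ℝ := {y : ℝ | ∃ x : ℝ, 0 < F4 c x y} with hJ
  have hJo : IsOpen J := by
    rw [isOpen_iff_mem_nhds]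
    rintro y ⟨x, hx⟩
    have hcont : Continuous fun y : ℝ => F4 c x y := by unfold F4; fun_prop
    refine Filter.mem_of_superset ((isOpen_lt continuous_const hcont).mem_nhds hx) ?_
    intro y' hy'
    exact ⟨x, hy'⟩
  set G : ℝ → Prop := Gd2 σ τ c x₀ y₀ w₀ with hG
  have hu : IsOpen {y | y ∈ J ∧ G y} := by
    rw [isOpen_iff_mem_nhds]
    rintro y ⟨h1, h2⟩
    obtain ⟨δ, hδ, hd⟩ := Gd2.open hinj hr hw₀ hio hE hF h2 h1
    refine Filter.mem_of_superset (Filter.inter_mem (hJo.mem_nhds h1) (Metric.ball_mem_nhds y hδ)) ?_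
    rintro y' ⟨h3, h4⟩
    refine ⟨h3, hd y' ?_⟩
    rw [Metric.mem_ball, Real.dist_eq] at h4
    exact h4
  have hv : IsOpen {y | y ∈ J ∧ ¬ G y} := by
    rw [isOpen_iff_mem_nhds]
    rintro y ⟨h1, h2⟩
    have h3 : ∃ η : ℝ, 0 < η ∧ ∀ Y' : ℝ, |Y' - y| < η → ¬ G Y' := by
      by_contra hcon
      push Not at hcon
      exact h2 (Gd2.lim fun η hη => hcon η hη)
    obtain ⟨η, hη, hd⟩ := h3
    refine Filter.mem_of_superset (Filter.inter_mem (hJo.mem_nhds h1) (Metric.ball_mem_nhds y hη)) ?_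
    rintro y' ⟨h3, h4⟩
    refine ⟨h3, hd y' ?_⟩
    rw [Metric.mem_ball, Real.dist_eq] at h4
    exact h4
  have h0' : 0 < F4 c (τ x₀) (τ y₀) := by
    rw [← map_F4, ← h0, map_pow]
    have : τ w₀ ≠ 0 := (map_ne_zero τ).2 hw₀
    positivity
  have hstart : G (τ y₀) := by
    intro X W he hW
    refine Cr.mv_x hinj hr hw₀ (Cr.self h0) ?_ he hW
    rw [← map_dcn]
    exact (map_ne_zero τ).2 hF
  have hsub := IsPreconnected.subset_left_of_subset_union hu hv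
    (Set.disjoint_left.2 fun y h1 h2 => h2.2 h1.2)
    (fun y hy => (Classical.em (G y)).elim (fun h => Or.inl ⟨hy, h⟩) fun h => Or.inr ⟨hy, h⟩)
    ⟨τ y₀, ⟨τ x₀, h0'⟩, ⟨τ x₀, h0'⟩, hstart⟩ hconn
  exact (hsub hY).2

end Pool.Agent.Y720.MZ
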