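import Pool.Agent.Y720.WC.C6

/-!
# Conic bundles: density (helper720)
-/

set_option autoImplicit false
set_option linter.unusedVariables false
set_option linter.unusedSectionVars false

open WeierstrassCurve Filter Topology

namespace Pool.Agent.Y720.MZ

section loc

variable {p : ℕ} [hp : Fact p.Prime] {c h : Fin 5 → Fin 5 → ℤ} {a b e d : ℤ}

/-- points with zero ordinate are limits of points with nonzero ordinate -/
lemma G2.near (H : G2 p c h a b e d)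
    {X Y W : ℚ_[p]} (hw : W ^ 2 = F4 c X Y) {η : ℝ} (hη : 0 < η) :
    ∃ Y' W' : ℚ_[p], W' ≠ 0 ∧ W' ^ 2 = F4 c X Y' ∧ ‖Y' - Y‖ < η ∧ ‖W' - W‖ < η := by
  by_cases hW : W = 0
  · subst hW
    obtain ⟨X0, Y0, W0, rfl, rfl, e3, e4⟩ := H.int hw
    have hW0 : W0 = 0 := by
      have : ((W0 : ℤ_[p]) : ℚ_[p]) = ((0 : ℤ_[p]) : ℚ_[p]) := by rw [← e3]; rfl
      exact PadicInt.ext this
    have hq0 : ((tq c X0 Y0 0 : ℤ_[p]) : ℚ_[p]) ≠ 0 := ne_of_one (H.cu X0 Y0 W0).2.2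
    set g : ℚ_[p] → ℚ_[p] := qv (0 : ℚ_[p]) (tq c (X0 : ℚ_[p]) (Y0 : ℚ_[p])) with hg
    have hgd : HasStrictDerivAt g (tq c (X0 : ℚ_[p]) (Y0 : ℚ_[p]) 0) 0 := by
      have h1 : HasStrictDerivAt (fun t : ℚ_[p] => t) 1 0 := hasStrictDerivAt_id 0
      have h2 := (((h1.const_mul (tq c (X0 : ℚ_[p]) (Y0 : ℚ_[p]) 0)).add
        ((h1.pow 2).const_mul (tq c (X0 : ℚ_[p]) (Y0 : ℚ_[p]) 1))).add
        ((h1.pow 3).const_mul (tq c (X0 : ℚ_[p]) (Y0 : ℚ_[p]) 2))).add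
        ((h1.pow 4).const_mul (tq c (X0 : ℚ_[p]) (Y0 : ℚ_[p]) 3))
      have e1 : g = fun t : ℚ_[p] => tq c (X0 : ℚ_[p]) (Y0 : ℚ_[p]) 0 * t +
          tq c (X0 : ℚ_[p]) (Y0 : ℚ_[p]) 1 * t ^ 2 + tq c (X0 : ℚ_[p]) (Y0 : ℚ_[p]) 2 * t ^ 3 +
          tq c (X0 : ℚ_[p]) (Y0 : ℚ_[p]) 3 * t ^ 4 := by
        funext t; rw [hg]; unfold qv; ring
      rw [e1]
      exact HasStrictDerivAt.congr_deriv h2 (by norm_num)
    have hq0' : tq c (X0 : ℚ_[p]) (Y0 : ℚ_[p]) 0 ≠ 0 := by rw [← tq_coe]; exact hq0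
    have hmap := hgd.map_nhds_eq hq0'
    have hg0 : g 0 = 0 := by rw [hg]; unfold qv; ring
    have h3 : g '' Metric.ball (0 : ℚ_[p]) η ∈ 𝓝 (g 0) := by
      rw [← hmap]
      exact Filter.image_mem_map (Metric.ball_mem_nhds (0 : ℚ_[p]) hη)
    rw [hg0] at h3
    obtain ⟨δ, hδ, hb⟩ := Metric.mem_nhds_iff.1 h3
    obtain ⟨J, hJ1, hJ2⟩ : ∃ J : ℕ, ‖(p : ℚ_[p])‖ ^ J < η ∧ ‖(p : ℚ_[p])‖ ^ J < min δ 1 := by
      have ht := tendsto_pow_atTop_nhds_zero_of_lt_one (norm_nonneg _) (norm_p_lt (p := p))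
      exact ((ht.eventually_lt_const hη).and (ht.eventually_lt_const
        (lt_min hδ one_pos))).exists
    have hs : ((p : ℚ_[p]) ^ J) ^ 2 ∈ Metric.ball (0 : ℚ_[p]) δ := by
      rw [mem_ball_zero_iff, norm_pow, norm_pow]
      have h4 := hJ2.trans_le (min_le_left _ _)
      have h5 := hJ2.trans_le (min_le_right _ _)
      have h6 : 0 ≤ ‖(p : ℚ_[p])‖ ^ J := by positivity
      nlinarith
    obtain ⟨t, ht1, ht2⟩ := hb hs
    refine ⟨(Y0 : ℚ_[p]) + t, (p : ℚ_[p]) ^ J, pow_ne_zero _ (by exact_mod_cast hp.out.ne_zero),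
      ?_, ?_, ?_⟩
    · rw [← ht2, hg]
      exact qv_tq c (by rw [← F4_coe, ← e4, hW0]; simp) t
    · rw [add_sub_cancel_left]; exact mem_ball_zero_iff.1 ht1
    · rw [sub_zero, norm_pow]; exact hJ1
  · exact ⟨Y, W, hW, hw, by rw [sub_self, norm_zero]; exact hη,
      by rw [sub_self, norm_zero]; exact hη⟩

end loc

variable {K : Type*} [Field K] [CharZero K] {ι : Type*} [Fintype ι] {p : ι → ℕ}
  [hp : ∀ i, Fact (p i).Prime] {σ : ∀ i, K →+* ℚ_[p i]} {τ : K →+* ℝ}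
variable {c : Fin 5 → Fin 5 → ℤ} {h : ι → Fin 5 → Fin 5 → ℤ} {a b e d : ι → ℤ}

/-- **Density at the primes.** -/
theorem dense2 [Nonempty ι] (hinj : Function.Injective p)
    (H : ∀ i, G2 (p i) c (h i) (a i) (b i) (e i) (d i)) {x₀ y₀ w₀ : K}
    (h0 : w₀ ^ 2 = F4 c x₀ y₀) (hw : ∀ i, ‖σ i w₀‖ = 1) {X Y W : ∀ i, ℚ_[p i]}
    (hX : ∀ i, W i ^ 2 = F4 c (X i) (Y i)) : Clo σ c X Y W := by
  intro η hη
  choose Y' W' k1 k2 k3 k4 using fun i => (H i).near (hX i) (half_pos hη)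
  obtain ⟨x, y, w, g1, g2⟩ := dense2' hinj H h0 hw k2 k1 (η / 2) (half_pos hη)
  refine ⟨x, y, w, g1, fun i => ⟨by linarith [(g2 i).1], ?_, ?_⟩⟩
  · have h1 := (g2 i).2.1
    have h2 := k3 i
    have := norm_sub_le_norm_sub_add_norm_sub (σ i y) (Y' i) (Y i)
    linarith
  · have h1 := (g2 i).2.2
    have h2 := k4 i
    have := norm_sub_le_norm_sub_add_norm_sub (σ i w) (W' i) (W i)
    linarith

/-- **Density at the primes and at the real place.** -/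
theorem dense2_real [Nonempty ι] (hinj : Function.Injective p)
    (H : ∀ i, G2 (p i) c (h i) (a i) (b i) (e i) (d i)) {x₀ y₀ w₀ : K}
    (h0 : w₀ ^ 2 = F4 c x₀ y₀) (hw : ∀ i, ‖σ i w₀‖ = 1)
    (hconn : IsPreconnected {y : ℝ | ∃ x : ℝ, 0 < F4 c x y}) {X Y W : ∀ i, ℚ_[p i]}
    (hX : ∀ i, W i ^ 2 = F4 c (X i) (Y i)) {X' Y' W' : ℝ} (hX' : W' ^ 2 = F4 c X' Y')
    (hW' : W' ≠ 0) {η : ℝ} (hη : 0 < η) :
    ∃ x y w : K, w ^ 2 = F4 c x y ∧ (|τ x - X'| < η ∧ |τ y - Y'| < η ∧ |τ w - W'| < η) ∧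
      ∀ i, ‖σ i x - X i‖ < η ∧ ‖σ i y - Y i‖ < η ∧ ‖σ i w - W i‖ < η := by
  classical
  have hη4 : 0 < η / 4 := by positivity
  obtain ⟨i₀⟩ := ‹Nonempty ι›
  have : Nonempty ι := ⟨i₀⟩
  -- the conic over `y₀` is smooth
  have hdc : dcn c y₀ ≠ 0 := by
    intro hz
    have hm : (σ i₀ w₀) ^ 2 = F4 c (σ i₀ x₀) (σ i₀ y₀) := by rw [← map_pow, h0, map_F4]
    obtain ⟨X0, Y0, W0, e1, e2, e3, e4⟩ := (H i₀).int hm
    refine (H i₀).disc e4 (by rw [← coe_norm, ← e3]; exact hw i₀) ?_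
    have h2 : ((dcn c Y0 : ℤ_[p i₀]) : ℚ_[p i₀]) = ((0 : ℤ_[p i₀]) : ℚ_[p i₀]) := by
      have h3 : ((dcn c Y0 : ℤ_[p i₀]) : ℚ_[p i₀]) = dcn c (Y0 : ℚ_[p i₀]) :=
        map_dcn c (PadicInt.Coe.ringHom (p := p i₀)) Y0
      rw [h3, ← e2, ← map_dcn, hz, map_zero]
      rfl
    exact PadicInt.ext h2
  -- the local points are moved
  have hmv : ∀ i, ∃ Y₁ W₁ : ℚ_[p i], W₁ ≠ 0 ∧ W₁ ^ 2 = F4 c (X i) Y₁ ∧ ‖Y₁ - Y i‖ < η / 2 ∧
      ‖W₁ - W i‖ < η / 2 ∧ dcn c Y₁ ≠ 0 := by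
    intro i
    obtain ⟨Y₁, W₁, k1, k2, k3, k4⟩ := (H i).near (hX i) hη4
    obtain ⟨t', Z', m1, m2, m3, m4⟩ := perturb' (g := fun y : ℚ_[p i] => F4 c (X i) y)
      (by unfold F4; fun_prop) k2 k1 (η := min (η / 4) ‖W₁‖) (lt_min hη4 (norm_pos_iff.2 k1))
      (fin_dcn hdc ℚ_[p i])
    refine ⟨t', Z', ?_, m4, ?_, ?_, m1⟩
    · rintro rfl
      rw [zero_sub, norm_neg] at m3
      exact absurd (m3.trans_le (min_le_right _ _)) (lt_irrefl _)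
    · have := norm_sub_le_norm_sub_add_norm_sub t' Y₁ (Y i)
      have := m2.trans_le (min_le_left _ _)
      linarith
    · have := norm_sub_le_norm_sub_add_norm_sub Z' W₁ (W i)
      have := m3.trans_le (min_le_left _ _)
      linarith
  choose Y₁ W₁ k1 k2 k3 k4 k5 using hmv
  have hcont : Continuous fun y : ℚ_[p i₀] => dcn c y := by unfold dcn rf; fun_prop
  obtain ⟨δ, hδ, hd⟩ := Metric.eventually_nhds_iff_ball.1
    (hcont.continuousAt.eventually_ne (k5 i₀))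
  obtain ⟨x, y, w, hxy, hn⟩ := dense2' (σ := σ) hinj H h0 hw k2 k1
    (min (min δ ‖W₁ i₀‖) (η / 4)) (lt_min (lt_min hδ (norm_pos_iff.2 (k1 i₀))) hη4)
  have hw0 : w ≠ 0 := by
    rintro rfl
    have := (hn i₀).2.2
    rw [map_zero, zero_sub, norm_neg] at this
    exact absurd (this.trans_le ((min_le_left _ _).trans (min_le_right _ _))) (lt_irrefl _)
  have hy0 : dcn c y ≠ 0 := by
    intro hz
    apply hd (σ i₀ y) (by
      rw [mem_ball_iff_norm]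
      exact (hn i₀).2.1.trans_le ((min_le_left _ _).trans (min_le_left _ _)))
    rw [← map_dcn, hz, map_zero]
  have hG := real_all (σ := σ) (τ := τ) hinj (H i₀).row hxy hw0
    (fun i => (H i).io hxy hw0) hy0 hconn Y' ⟨X', by rw [← hX']; positivity⟩
  obtain ⟨x', y', w', g1, g2, g3⟩ := hG X' W' hX' hW' (η / 4) hη4
  refine ⟨x', y', w', g1, ⟨by linarith [g2.1], by linarith [g2.2.1], by linarith [g2.2.2]⟩,
    fun i => ?_⟩
  obtain ⟨a1, a2, a3⟩ := g3 i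
  obtain ⟨b1, b2, b3⟩ := hn i
  have b1' := b1.trans_le (min_le_right _ _)
  have b2' := b2.trans_le (min_le_right _ _)
  have b3' := b3.trans_le (min_le_right _ _)
  refine ⟨?_, ?_, ?_⟩
  · have := norm_sub_le_norm_sub_add_norm_sub (σ i x') (σ i x) (X i)
    linarith
  · have := norm_sub_le_norm_sub_add_norm_sub (σ i y') (σ i y) (Y₁ i)
    have := norm_sub_le_norm_sub_add_norm_sub (σ i y') (Y₁ i) (Y i)
    have := k3 i
    linarith
  · have := norm_sub_le_norm_sub_add_norm_sub (σ i w') (σ i w) (W₁ i)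
    have := norm_sub_le_norm_sub_add_norm_sub (σ i w') (W₁ i) (W i)
    have := k4 i
    linarith

end Pool.Agent.Y720.MZ
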