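import Pool.Agent.Y720.WC.C7
import Pool.Agent.Y720.WD.Exi

/-!
# Conic bundles: the conditions in terms of integers, existence (helper720)
-/

set_option autoImplicit false
set_option linter.unusedVariables false
set_option linter.unusedSectionVars false

namespace Pool.Agent.Y720.MZ

/-- extension by zero -/
def e35 (c : Fin 3 → Fin 5 → ℤ) : Fin 5 → Fin 5 → ℤ :=
  fun i j => if h : (i : ℕ) < 3 then c ⟨i, h⟩ j else 0

lemma e35_row (c : Fin 3 → Fin 5 → ℤ) (j : Fin 5) : e35 c 3 j = 0 ∧ e35 c 4 j = 0 := by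
  simp [e35]

/-- the polynomial of degree 2 in the first variable and 4 in the second variable -/
def F2 (c : Fin 3 → Fin 5 → ℤ) {R : Type*} [CommRing R] (x y : R) : R :=
  ∑ i, ∑ j, (c i j : R) * x ^ (i : ℕ) * y ^ (j : ℕ)

lemma F2_eq (c : Fin 3 → Fin 5 → ℤ) {R : Type*} [CommRing R] (x y : R) :
    F2 c x y = F4 (e35 c) x y := by
  simp only [F2, F4, Fin.sum_univ_five, Fin.sum_univ_three]
  simp [e35]

section int

variable {p : ℕ} [hp : Fact p.Prime]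

/-- the conditions -/
theorem G2.of_int (h11 : 11 ≤ p) {c : Fin 3 → Fin 5 → ℤ} {a b e d : ℤ}
    (h1 : ¬ IsSquare (a : ZMod p)) (h2 : ¬ (p : ℤ) ∣ d)
    (h3 : ∀ x y : ℤ, (p : ℤ) ∣ F2 c x y - (a * x ^ 2 + b * x + e + d * y))
    (h4 : ∀ x : ℤ, ¬ (p : ℤ) ^ 2 ∣ c 0 4 + c 1 4 * x + c 2 4 * x ^ 2)
    (h5 : ¬ (p : ℤ) ^ 2 ∣ c 2 4) :
    ∃ h : Fin 5 → Fin 5 → ℤ, G2 p (e35 c) h a b e d := by
  have hp0 : (p : ℤ) ≠ 0 := by exact_mod_cast hp.out.ne_zero
  have hz : ∀ i j, ((e35 c i j - g2 a b e d i j : ℤ) : ZMod p) = 0 := by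
    apply F4_zero h11
    intro x y
    have e1 : F4 (fun i j => e35 c i j - g2 a b e d i j) x y =
        F4 (e35 c) x y - F4 (g2 a b e d) x y := by
      unfold F4
      rw [← Finset.sum_sub_distrib]
      refine Finset.sum_congr rfl fun i _ => ?_
      rw [← Finset.sum_sub_distrib]
      refine Finset.sum_congr rfl fun j _ => ?_
      push_cast; ring
    rw [e1, F4_g2]
    have hx : ((x.val : ℤ) : ZMod p) = x := by simp
    have hy : ((y.val : ℤ) : ZMod p) = y := by simp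
    have h6 := (ZMod.intCast_zmod_eq_zero_iff_dvd _ p).2 (h3 x.val y.val)
    rw [F2_eq] at h6
    have h7 : ((F4 (e35 c) (x.val : ℤ) (y.val : ℤ) : ℤ) : ZMod p) = F4 (e35 c) x y := by
      have := map_F4 (e35 c) (Int.castRingHom (ZMod p)) (x.val : ℤ) (y.val : ℤ)
      simpa using this
    push_cast at h6
    rw [h7] at h6
    simpa using h6
  choose h hh using fun i j => (ZMod.intCast_zmod_eq_zero_iff_dvd _ p).1 (hz i j)
  have hc : ∀ i j, e35 c i j = g2 a b e d i j + p * h i j := fun i j => by rw [← hh]; ring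
  have g3 : ∀ j, g2 a b e d 3 j = 0 ∧ g2 a b e d 4 j = 0 := fun j => by
    fin_cases j <;> simp [g2]
  have hr : ∀ j, h 3 j = 0 ∧ h 4 j = 0 := by
    intro j
    have a1 := hc 3 j
    have a2 := hc 4 j
    rw [(e35_row c j).1, (g3 j).1, zero_add] at a1
    rw [(e35_row c j).2, (g3 j).2, zero_add] at a2
    exact ⟨(mul_eq_zero.1 a1.symm).resolve_left hp0, (mul_eq_zero.1 a2.symm).resolve_left hp0⟩
  have k0 : c 0 4 = p * h 0 4 := by
    have := hc 0 4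
    simpa [e35, g2] using this
  have k1 : c 1 4 = p * h 1 4 := by
    have := hc 1 4
    simpa [e35, g2] using this
  have k2 : c 2 4 = p * h 2 4 := by
    have := hc 2 4
    simpa [e35, g2] using this
  refine ⟨h, ⟨h11, hr, hc, h1, ?_, ?_, ?_⟩⟩
  · intro h0
    exact h2 ((ZMod.intCast_zmod_eq_zero_iff_dvd _ p).1 h0)
  · intro k h0
    have hk : ((k.val : ℤ) : ZMod p) = k := by simp
    apply h4 k.val
    have e1 : cf h k 4 = h 0 4 + h 1 4 * k + h 2 4 * k ^ 2 := by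
      simp [cf, Fin.sum_univ_five, (hr _).1, (hr _).2]
    rw [e1] at h0
    have e2 : ((h 0 4 + h 1 4 * (k.val : ℤ) + h 2 4 * (k.val : ℤ) ^ 2 : ℤ) : ZMod p) = 0 := by
      push_cast
      rw [show ((k.val : ℕ) : ZMod p) = k by simp]
      exact h0
    obtain ⟨m, hm⟩ := (ZMod.intCast_zmod_eq_zero_iff_dvd _ p).1 e2
    refine ⟨m, ?_⟩
    rw [k0, k1, k2]
    linear_combination (p : ℤ) * hm
  · intro h0
    obtain ⟨m, hm⟩ := (ZMod.intCast_zmod_eq_zero_iff_dvd _ p).1 h0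
    exact h5 ⟨m, by rw [k2, hm]; ring⟩

/-- an example -/
def ex2 (p : ℕ) (ν : ℤ) : Fin 3 → Fin 5 → ℤ :=
  ![![1 - ν, 1, 0, 0, -(p * ν)], ![0, 0, 0, 0, 0], ![ν, 0, 0, 0, p]]

lemma F2_ex2 (p : ℕ) (ν x y : ℤ) : F2 (ex2 p ν) x y =
    ν * x ^ 2 + 0 * x + (1 - ν) + 1 * y + p * ((x ^ 2 - ν) * y ^ 4) := by
  simp [F2, ex2, Fin.sum_univ_five, Fin.sum_univ_three]
  ring

/-- the difference of two polynomials with congruent coefficients -/
lemma cong_sq2 {c d : Fin 3 → Fin 5 → ℤ} (h : ∀ i j, (p : ℤ) ^ 2 ∣ c i j - d i j) (x y : ℤ) :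
    (p : ℤ) ^ 2 ∣ F2 c x y - F2 d x y := by
  have e : F2 c x y - F2 d x y = F2 (fun i j => c i j - d i j) x y := by
    unfold F2
    rw [← Finset.sum_sub_distrib]
    refine Finset.sum_congr rfl fun i _ => ?_
    rw [← Finset.sum_sub_distrib]
    refine Finset.sum_congr rfl fun j _ => ?_
    push_cast; ring
  rw [e]
  unfold F2
  refine Finset.dvd_sum fun i _ => Finset.dvd_sum fun j _ => ?_
  push_cast
  exact Dvd.dvd.mul_right (Dvd.dvd.mul_right (h i j) _) _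

lemma ex2_ok (h11 : 11 ≤ p) {ν : ℤ} (hν : ¬ IsSquare (ν : ZMod p)) {c : Fin 3 → Fin 5 → ℤ}
    (h : ∀ i j, (p : ℤ) ^ 2 ∣ c i j - ex2 p ν i j) :
    (∀ x y : ℤ, (p : ℤ) ∣ F2 c x y - (ν * x ^ 2 + 0 * x + (1 - ν) + 1 * y)) ∧
    (∀ x : ℤ, ¬ (p : ℤ) ^ 2 ∣ c 0 4 + c 1 4 * x + c 2 4 * x ^ 2) ∧ ¬ (p : ℤ) ^ 2 ∣ c 2 4 := by
  have hp0 : (p : ℤ) ≠ 0 := by exact_mod_cast hp.out.ne_zero
  have hpp : Prime (p : ℤ) := Nat.prime_iff_prime_int.1 hp.out
  have e04 : ex2 p ν 0 4 = -(p * ν) := rfl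
  have e14 : ex2 p ν 1 4 = 0 := rfl
  have e24 : ex2 p ν 2 4 = p := rfl
  refine ⟨?_, ?_, ?_⟩
  · intro x y
    have h1 := cong_sq2 h x y
    have e1 : F2 c x y - (ν * x ^ 2 + 0 * x + (1 - ν) + 1 * y) = (F2 c x y - F2 (ex2 p ν) x y) +
        p * ((x ^ 2 - ν) * y ^ 4) := by
      rw [F2_ex2]; ring
    rw [e1]
    exact dvd_add ((Dvd.intro_left _ (by ring : (p : ℤ) * p = (p : ℤ) ^ 2)).trans h1)
      (dvd_mul_right _ _)
  · intro x h0
    have a0 := h 0 4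
    have a1 := h 1 4
    have a2 := h 2 4
    rw [e04] at a0
    rw [e14] at a1
    rw [e24] at a2
    have h1 : (p : ℤ) ^ 2 ∣ p * (x ^ 2 - ν) := by
      have e1 : (p : ℤ) * (x ^ 2 - ν) = (c 0 4 + c 1 4 * x + c 2 4 * x ^ 2) -
          (c 0 4 - -(p * ν)) - (c 1 4 - 0) * x - (c 2 4 - p) * x ^ 2 := by ring
      rw [e1]
      exact dvd_sub (dvd_sub (dvd_sub h0 a0) (a1.mul_right _)) (a2.mul_right _)
    rw [sq, mul_dvd_mul_iff_left hp0] at h1
    apply hν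
    have := (ZMod.intCast_zmod_eq_zero_iff_dvd _ p).2 h1
    push_cast at this
    rw [← sub_eq_zero.1 this]
    exact ⟨_, sq _⟩
  · intro h0
    have a2 := h 2 4
    rw [e24] at a2
    have h1 : (p : ℤ) ^ 2 ∣ p * 1 := by
      have e1 : (p : ℤ) * 1 = c 2 4 - (c 2 4 - p) := by ring
      rw [e1]
      exact dvd_sub h0 a2
    rw [sq, mul_dvd_mul_iff_left hp0] at h1
    exact hpp.not_dvd_one h1

end int

/-- the matrix with a rational point `(1, 0, z 0 0)` -/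
def pt2 {R : Type*} [CommRing R] (z : Fin 3 → Fin 5 → R) : Fin 3 → Fin 5 → R :=
  fun i j => if i = 0 ∧ j = 0 then z 0 0 ^ 2 - (z 1 0 + z 2 0) else z i j

lemma F2_pt2 (z : Fin 3 → Fin 5 → ℤ) : F2 (pt2 z) (1 : ℤ) 0 = (z 0 0) ^ 2 := by
  simp [F2, pt2, Fin.sum_univ_five, Fin.sum_univ_three]
  ring

/-- the congruences -/
lemma pt2_cong {N : ℤ} {z c : Fin 3 → Fin 5 → ℤ} {ω : ℤ} (h0 : N ∣ z 0 0 - ω)
    (h1 : ∀ i j, ¬ (i = 0 ∧ j = 0) → N ∣ z i j - c i j) (h2 : N ∣ ω ^ 2 - F2 c (1 : ℤ) 0)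
    (i : Fin 3) (j : Fin 5) : N ∣ pt2 z i j - c i j := by
  by_cases h : i = 0 ∧ j = 0
  · obtain ⟨rfl, rfl⟩ := h
    have e0 : F2 c (1 : ℤ) 0 = c 0 0 + c 1 0 + c 2 0 := by
      simp [F2, Fin.sum_univ_five, Fin.sum_univ_three]
    rw [e0] at h2
    have e : pt2 z 0 0 - c 0 0 = (z 0 0 - ω) * (z 0 0 + ω) + (ω ^ 2 -
        (c 0 0 + c 1 0 + c 2 0)) - (z 1 0 - c 1 0) - (z 2 0 - c 2 0) := by
      simp [pt2]; ring
    rw [e]
    refine dvd_sub (dvd_sub (dvd_add (h0.mul_right _) h2) ?_) ?_ <;> exact h1 _ _ (by decide)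
  · have : pt2 z i j = z i j := by simp [pt2, h]
    rw [this]
    exact h1 i j h

/-- the matrices with a rational point and a positive leading coefficient are Zariski dense -/
lemma pt2_dense {P : MvPolynomial (Fin 3 × Fin 5) ℂ} (hP : P ≠ 0) {N : ℤ} (hN : 0 < N)
    (d : Fin 3 → Fin 5 → ℤ) : ∃ z : Fin 3 → Fin 5 → ℤ, (∀ i j, N ∣ z i j - d i j) ∧
      MvPolynomial.eval (fun a => ((pt2 z a.1 a.2 : ℤ) : ℂ)) P ≠ 0 ∧
      |z 2 1| + |z 2 2| + |z 2 3| < z 2 0 ∧ |z 2 1| + |z 2 2| + |z 2 3| < z 2 4 := by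
  classical
  by_contra hcon
  push Not at hcon
  -- the substitution
  set Q : MvPolynomial (Fin 3 × Fin 5) ℂ := MvPolynomial.bind₁ (fun a : Fin 3 × Fin 5 =>
    pt2 (fun i j => (MvPolynomial.X (i, j) : MvPolynomial (Fin 3 × Fin 5) ℂ)) a.1 a.2) P with hQ
  have hev : ∀ z : Fin 3 × Fin 5 → ℂ, MvPolynomial.eval z Q =
      MvPolynomial.eval (fun a => pt2 (fun i j => z (i, j)) a.1 a.2) P := by
    intro z
    rw [hQ, MvPolynomial.eval, MvPolynomial.eval₂Hom_bind₁]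
    congr 2
    funext a
    simp only [pt2]
    split_ifs <;> simp
  set D := Q.totalDegree
  set M : ℤ := |d 2 1| + |d 2 2| + |d 2 3| + 3 * (N * D) + |d 2 0| + |d 2 4| + 1 with hM
  have hM0 : 0 ≤ M := by positivity
  set T : Fin 3 × Fin 5 → ℤ := fun a => if a = (2, 0) ∨ a = (2, 4) then M else 0 with hT
  set S : Fin 3 × Fin 5 → Finset ℂ := fun a => (Finset.range (D + 1)).image
    (fun t : ℕ => ((d a.1 a.2 + N * (t + T a) : ℤ) : ℂ)) with hS
  have hcard : ∀ a, (S a).card = D + 1 := by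
    intro a
    rw [hS]
    simp only
    rw [Finset.card_image_of_injective, Finset.card_range]
    intro t t' h
    have h' : d a.1 a.2 + N * (t + T a) = d a.1 a.2 + N * (t' + T a) := Int.cast_injective h
    have h2 := mul_left_cancel₀ hN.ne' (add_left_cancel h')
    have h3 := add_right_cancel h2
    exact_mod_cast h3
  have hQ0 : Q = 0 := by
    apply MvPolynomial.eq_zero_of_eval_zero_at_prod_finset Q S
    · intro a
      rw [hcard]
      exact Nat.lt_succ_of_le (MvPolynomial.degreeOf_le_totalDegree Q a)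
    · intro x hx
      have hx' : ∀ a : Fin 3 × Fin 5, ∃ t : ℕ, t < D + 1 ∧
          ((d a.1 a.2 + N * (t + T a) : ℤ) : ℂ) = x a := by
        intro a
        have := hx a
        rw [hS] at this
        simp only [Finset.mem_image, Finset.mem_range] at this
        exact this
      choose t ht1 ht2 using hx'
      set z : Fin 3 → Fin 5 → ℤ := fun i j => d i j + N * (t (i, j) + T (i, j)) with hz
      have hzx : ∀ a, x a = ((z a.1 a.2 : ℤ) : ℂ) := fun a => (ht2 a).symm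
      have he : MvPolynomial.eval x Q =
          MvPolynomial.eval (fun a => ((pt2 z a.1 a.2 : ℤ) : ℂ)) P := by
        rw [hev]
        congr 2
        funext a
        simp only [pt2]
        split_ifs with h
        · simp only [hzx]
          push_cast
          ring
        · simp only [hzx]
      rw [he]
      by_contra hne
      have hb : ∀ j : Fin 5, j ≠ 0 → j ≠ 4 → |z 2 j| ≤ |d 2 j| + N * D := by
        intro j hj0 hj4
        have hT0 : T (2, j) = 0 := by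
          rw [hT]
          simp [hj0, hj4]
        have e1 : z 2 j = d 2 j + N * t (2, j) := by
          rw [hz]; simp only; rw [hT0, add_zero]
        rw [e1]
        refine (abs_add_le _ _).trans (add_le_add le_rfl ?_)
        have h1 : (t (2, j) : ℤ) ≤ D := by exact_mod_cast Nat.lt_succ_iff.1 (ht1 (2, j))
        rw [abs_of_nonneg (by positivity)]
        exact mul_le_mul_of_nonneg_left h1 hN.le
      have hl : ∀ j : Fin 5, j = 0 ∨ j = 4 → M - |d 2 j| ≤ z 2 j := by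
        intro j hj
        have hT0 : T (2, j) = M := by
          rw [hT]
          rcases hj with rfl | rfl <;> simp
        have e1 : z 2 j = d 2 j + N * (t (2, j) + M) := by
          rw [hz]; simp only; rw [hT0]
        rw [e1]
        have h1 : -|d 2 j| ≤ d 2 j := neg_abs_le _
        have h2 : M ≤ N * (t (2, j) + M) := by
          have : (0 : ℤ) ≤ t (2, j) := by positivity
          nlinarith
        linarith
      have b1 := hb 1 (by decide) (by decide)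
      have b2 := hb 2 (by decide) (by decide)
      have b3 := hb 3 (by decide) (by decide)
      have l0 := hl 0 (Or.inl rfl)
      have l4 := hl 4 (Or.inr rfl)
      have p0 := abs_nonneg (d 2 0)
      have p4 := abs_nonneg (d 2 4)
      refine absurd (hcon z (fun i j => ⟨t (i, j) + T (i, j), by rw [hz]; ring⟩) hne
        (by rw [hM] at l0; linarith)) ?_
      rw [not_le]
      rw [hM] at l4
      linarith
  apply hP
  apply MvPolynomial.funext
  intro c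
  obtain ⟨u, hu⟩ := IsAlgClosed.exists_pow_nat_eq (c (0, 0) + (c (1, 0) + c (2, 0)))
    (n := 2) (by norm_num)
  have h1 := hev (fun a => if a.1 = 0 ∧ a.2 = 0 then u else c a)
  rw [hQ0, map_zero] at h1
  rw [map_zero, h1]
  congr 2
  funext a
  obtain ⟨i, j⟩ := a
  by_cases h : i = 0 ∧ j = 0
  · obtain ⟨rfl, rfl⟩ := h
    simp [pt2, hu]
  · simp [pt2, h]

/-- the leading coefficient is positive -/
lemma lead_pos {z : Fin 3 → Fin 5 → ℤ} (h0 : |z 2 1| + |z 2 2| + |z 2 3| < z 2 0)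
    (h4 : |z 2 1| + |z 2 2| + |z 2 3| < z 2 4) (y : ℝ) :
    0 < z 2 0 + z 2 1 * y + z 2 2 * y ^ 2 + z 2 3 * y ^ 3 + z 2 4 * y ^ 4 := by
  have h0' : |(z 2 1 : ℝ)| + |(z 2 2 : ℝ)| + |(z 2 3 : ℝ)| < z 2 0 := by exact_mod_cast h0
  have h4' : |(z 2 1 : ℝ)| + |(z 2 2 : ℝ)| + |(z 2 3 : ℝ)| < z 2 4 := by exact_mod_cast h4
  have k : ∀ (u v : ℝ), |v| ≤ 1 + y ^ 4 → -(|u| * (1 + y ^ 4)) ≤ u * v := by
    intro u v hv
    have h1 : |u * v| ≤ |u| * (1 + y ^ 4) := by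
      rw [abs_mul]; exact mul_le_mul_of_nonneg_left hv (abs_nonneg u)
    exact (neg_le_neg h1).trans (neg_abs_le _)
  have y2 : 0 ≤ y ^ 2 := sq_nonneg y
  have y4 : 0 ≤ y ^ 4 := by positivity
  have e4 : y ^ 4 = (y ^ 2) ^ 2 := by ring
  have q1 : 0 ≤ (y ^ 2 - 1) ^ 2 := sq_nonneg _
  have q2 : 0 ≤ (y - 1) ^ 2 := sq_nonneg _
  have q3 : 0 ≤ (y + 1) ^ 2 := sq_nonneg _
  have q4 : 0 ≤ (y ^ 2 - y) ^ 2 := sq_nonneg _
  have q5 : 0 ≤ (y ^ 2 + y) ^ 2 := sq_nonneg _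
  have k1 := k (z 2 1) y (abs_le.2 ⟨by nlinarith, by nlinarith⟩)
  have k2 := k (z 2 2) (y ^ 2) (abs_le.2 ⟨by nlinarith, by nlinarith⟩)
  have k3 := k (z 2 3) (y ^ 3) (abs_le.2 ⟨by nlinarith, by nlinarith⟩)
  have e1 : 0 < (1 + y ^ 4) := by positivity
  have h0'' : 0 < (z 2 0 - (|(z 2 1 : ℝ)| + |(z 2 2 : ℝ)| + |(z 2 3 : ℝ)|)) := by linarith
  have h4'' : 0 ≤ (z 2 4 - (|(z 2 1 : ℝ)| + |(z 2 2 : ℝ)| + |(z 2 3 : ℝ)|)) * y ^ 4 :=
    mul_nonneg (by linarith) y4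
  nlinarith

/-- **there are many surfaces** -/
theorem exi2 (S : Finset Nat.Primes) (h11 : ∀ p ∈ S, 11 ≤ (p : ℕ)) {m : ℕ} (hm0 : 0 < m)
    (hm : ∀ p ∈ S, Nat.Coprime m p) {c' : Fin 3 → Fin 5 → ℤ} {r : ℤ}
    (hr : (m : ℤ) ∣ r ^ 2 - F2 c' (1 : ℤ) 0) {P : MvPolynomial (Fin 3 × Fin 5) ℂ} (hP : P ≠ 0) :
    ∃ (c : Fin 3 → Fin 5 → ℤ) (w : ℤ), (∀ i j, (m : ℤ) ∣ c i j - c' i j) ∧
      (∀ p ∈ S, ∃ ν : ℤ, ¬ IsSquare (ν : ZMod p) ∧
        ∀ i j, ((p : ℕ) : ℤ) ^ 2 ∣ c i j - ex2 p ν i j) ∧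
      w ^ 2 = F2 c (1 : ℤ) 0 ∧ (∀ p ∈ S, ¬ ((p : ℕ) : ℤ) ∣ w) ∧
      MvPolynomial.eval (fun a => ((c a.1 a.2 : ℤ) : ℂ)) P ≠ 0 ∧
      ∀ y : ℝ, 0 < c 2 0 + c 2 1 * y + c 2 2 * y ^ 2 + c 2 3 * y ^ 3 + c 2 4 * y ^ 4 := by
  classical
  have hns : ∀ p : Nat.Primes, ∃ ν : ℤ, p ∈ S → ¬ IsSquare (ν : ZMod p) := by
    intro p
    by_cases hp : p ∈ S
    · have : Fact (p : ℕ).Prime := ⟨p.2⟩
      obtain ⟨a, ha⟩ := FiniteField.exists_nonsquare (F := ZMod p) (by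
        rw [ZMod.ringChar_zmod_n]
        have := h11 p hp
        omega)
      exact ⟨a.val, fun _ => by simpa using ha⟩
    · exact ⟨0, fun h => absurd h hp⟩
  choose ν hν using hns
  obtain ⟨W, hW1, hW2⟩ := crt m S hm r (fun _ => 1)
  choose C hC1 hC2 using fun a : Fin 3 × Fin 5 =>
    crt m S hm (c' a.1 a.2) fun p => ex2 p (ν p) a.1 a.2
  set d : Fin 3 → Fin 5 → ℤ := fun i j => if i = 0 ∧ j = 0 then W else C (i, j)
  obtain ⟨z, hz1, hz2, hz3, hz4⟩ := pt2_dense hP (N := (NS m S : ℤ))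
    (by exact_mod_cast NS_pos hm0 S) d
  have hd0 : d 0 0 = W := by simp [d]
  have hd : ∀ i j, ¬ (i = 0 ∧ j = 0) → d i j = C (i, j) := fun i j h => by simp [d, h]
  have hmN := m_dvd_NS m S
  refine ⟨pt2 z, z 0 0, ?_, ?_, ?_, ?_, hz2, ?_⟩
  · apply pt2_cong (ω := r)
    · have := dvd_add (hmN.trans (hz1 0 0)) hW1
      rwa [hd0, sub_add_sub_cancel] at this
    · intro i j h
      have := dvd_add (hmN.trans (hz1 i j)) (hC1 (i, j))
      rwa [hd i j h, sub_add_sub_cancel] at this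
    · exact hr
  · intro p hp
    refine ⟨ν p, hν p hp, ?_⟩
    have hpN := dvd_NS m hp
    apply pt2_cong (ω := 1)
    · have := dvd_add (hpN.trans (hz1 0 0)) (hW2 p hp)
      rwa [hd0, sub_add_sub_cancel] at this
    · intro i j h
      have := dvd_add (hpN.trans (hz1 i j)) (hC2 (i, j) p hp)
      rwa [hd i j h, sub_add_sub_cancel] at this
    · rw [F2_ex2]
      norm_num
  · rw [F2_pt2]
  · intro p hp h
    have hpN := dvd_NS m hp
    have hpp : Prime ((p : ℕ) : ℤ) := Nat.prime_iff_prime_int.1 p.2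
    have h1 := dvd_add (hpN.trans (hz1 0 0)) (hW2 p hp)
    rw [hd0, sub_add_sub_cancel] at h1
    have h2 : ((p : ℕ) : ℤ) ∣ z 0 0 - 1 :=
      (Dvd.intro_left _ (by ring : ((p : ℕ) : ℤ) * (p : ℕ) = ((p : ℕ) : ℤ) ^ 2)).trans h1
    have h3 := dvd_sub h h2
    rw [sub_sub_cancel] at h3
    exact hpp.not_dvd_one h3
  · intro y
    have e : ∀ j, pt2 z 2 j = z 2 j := fun j => by simp [pt2]
    rw [e, e, e, e, e]
    exact lead_pos hz3 hz4 y

end Pool.Agent.Y720.MZ
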